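import Pool.Agent.H77.TIE.Step
import Pool.Agent.H1.TIE.All

/-!
# STEP V from the core
-/

set_option autoImplicit false

namespace Pool.TIE

/-- **The step from the core**, the degree before the errors. -/
theorem step_s (H : CoreOrd) : StepS := step_ord H

/-- **STEP V from the core**, the degree before the errors. -/
theorem all_s (H : CoreOrd) : AllS := all_of (step_s H)

end Pool.TIE
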