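import Pool.Agent.H65.TIE.Vdet
import Pool.Agent.H55.KS3.SML

/-!
# Elimination of the sheets outside a set of coordinates

`el e o j`: substitution of the sheets `o` (`j` times). After `m` steps the polynomials depend only
on the coordinates without a sheet.
-/

set_option autoImplicit false

namespace Pool.TIE

open Finset MvPolynomial
open Pool.Agent.H49.Ent Pool.Agent.H32.Dense Pool.STK Pool.BFL
open Pool.KAL (coefSum coefSum_nonneg coefSum_add_le coefSum_C coefSum_X coefSum_aeval_le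
  abs_coeff_le expBox coefSum_eq_box)

variable {m : ℕ}

/-! ### Polynomials on the cube -/

theorem pow_lipR {R x y r : ℝ} (hR : 1 ≤ R) (hx : |x| ≤ R) (hy : |y| ≤ R) (hr : |x - y| ≤ r)
    (n : ℕ) : |x ^ n - y ^ n| ≤ n * R ^ n * r := by
  have hR0 : 0 ≤ R := by linarith
  have hr0 : 0 ≤ r := (abs_nonneg _).trans hr
  induction n with
  | zero => simp
  | succ n ih =>
    have e : x ^ (n + 1) - y ^ (n + 1) = x * (x ^ n - y ^ n) + (x - y) * y ^ n := by ring
    rw [e]
    refine (abs_add_le _ _).trans ?_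
    rw [abs_mul, abs_mul, abs_pow]
    have h1 : |x| * |x ^ n - y ^ n| ≤ R * (n * R ^ n * r) :=
      mul_le_mul hx ih (abs_nonneg _) hR0
    have h2 : |x - y| * |y| ^ n ≤ r * R ^ n :=
      mul_le_mul hr (pow_le_pow_left₀ (abs_nonneg _) hy n) (by positivity) hr0
    have h3 : r * R ^ n ≤ r * R ^ (n + 1) :=
      mul_le_mul_of_nonneg_left (pow_le_pow_right₀ hR (Nat.le_succ n)) hr0
    push_cast
    have e2 : R * (n * R ^ n * r) = n * R ^ (n + 1) * r := by ring
    rw [e2] at h1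
    linarith

theorem prod_lipR {σ : Type*} {R r : ℝ} (hR : 1 ≤ R) (hr0 : 0 ≤ r) {x y : σ → ℝ}
    (hx : ∀ i, |x i| ≤ R) (hy : ∀ i, |y i| ≤ R) (hr : ∀ i, |x i - y i| ≤ r) (e : σ → ℕ)
    (s : Finset σ) : |∏ i ∈ s, x i ^ e i - ∏ i ∈ s, y i ^ e i| ≤
      (∑ i ∈ s, e i : ℕ) * R ^ (∑ i ∈ s, e i) * r := by
  classical
  have hR0 : 0 ≤ R := by linarith
  have hprod : ∀ s : Finset σ, |∏ i ∈ s, y i ^ e i| ≤ R ^ (∑ i ∈ s, e i) := by
    intro s
    rw [Finset.abs_prod, ← Finset.prod_pow_eq_pow_sum]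
    refine Finset.prod_le_prod (fun _ _ => abs_nonneg _) fun i _ => ?_
    rw [abs_pow]
    exact pow_le_pow_left₀ (abs_nonneg _) (hy i) _
  induction s using Finset.induction_on with
  | empty => simp
  | insert a s ha ih =>
    rw [Finset.prod_insert ha, Finset.prod_insert ha, Finset.sum_insert ha]
    have e1 : x a ^ e a * ∏ i ∈ s, x i ^ e i - y a ^ e a * ∏ i ∈ s, y i ^ e i =
        x a ^ e a * (∏ i ∈ s, x i ^ e i - ∏ i ∈ s, y i ^ e i) +
          (x a ^ e a - y a ^ e a) * ∏ i ∈ s, y i ^ e i := by ring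
    rw [e1]
    refine (abs_add_le _ _).trans ?_
    rw [abs_mul, abs_mul, abs_pow]
    have h1 : |x a| ^ e a * |∏ i ∈ s, x i ^ e i - ∏ i ∈ s, y i ^ e i| ≤
        R ^ e a * ((∑ i ∈ s, e i : ℕ) * R ^ (∑ i ∈ s, e i) * r) :=
      mul_le_mul (pow_le_pow_left₀ (abs_nonneg _) (hx a) _) ih (abs_nonneg _) (by positivity)
    have h2 : |x a ^ e a - y a ^ e a| * |∏ i ∈ s, y i ^ e i| ≤
        (e a * R ^ e a * r) * R ^ (∑ i ∈ s, e i) :=
      mul_le_mul (pow_lipR hR (hx a) (hy a) (hr a) _) (hprod s) (abs_nonneg _) (by positivity)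
    have e2 : ((e a + ∑ i ∈ s, e i : ℕ) : ℝ) * R ^ (e a + ∑ i ∈ s, e i) * r =
        R ^ e a * ((∑ i ∈ s, e i : ℕ) * R ^ (∑ i ∈ s, e i) * r) +
          (e a * R ^ e a * r) * R ^ (∑ i ∈ s, e i) := by
      rw [pow_add]
      push_cast
      ring
    rw [e2]
    exact add_le_add h1 h2

/-- A polynomial is Lipschitz near the unit cube. -/
theorem lip_cs {P : Pl m} {K : ℕ} {N r : ℝ} (hK : P.totalDegree ≤ K) (hN : coefSum P ≤ N)
    {x u : Fin m → ℝ} (hx : ∀ i, |x i| ≤ 1) (hr0 : 0 ≤ r) (hr1 : r ≤ 1)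
    (hr : ∀ i ∈ P.vars, |u i - x i| ≤ r) : |eval u P - eval x P| ≤ K * 2 ^ K * N * r := by
  classical
  obtain ⟨u', hu'⟩ : ∃ u' : Fin m → ℝ, u' = fun i => if i ∈ P.vars then u i else x i := ⟨_, rfl⟩
  have e1 : eval u P = eval u' P := eval_congr_vars fun i hi => by rw [hu']; exact (if_pos hi).symm
  have hr' : ∀ i, |u' i - x i| ≤ r := by
    intro i
    rw [hu']
    dsimp only
    split_ifs with h
    · exact hr i h
    · rw [sub_self, abs_zero]
      exact hr0
  have hx2 : ∀ i, |x i| ≤ 2 := fun i => (hx i).trans (by norm_num)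
  have hu2 : ∀ i, |u' i| ≤ 2 := by
    intro i
    have h1 : |u' i| ≤ |u' i - x i| + |x i| := by
      have := abs_add_le (u' i - x i) (x i)
      rwa [sub_add_cancel] at this
    linarith [hr' i, hx i]
  rw [e1, MvPolynomial.eval_eq', MvPolynomial.eval_eq', ← Finset.sum_sub_distrib]
  refine (Finset.abs_sum_le_sum_abs _ _).trans ?_
  have h2 : ∀ α ∈ P.support, |coeff α P * ∏ i, u' i ^ α i - coeff α P * ∏ i, x i ^ α i| ≤
      |coeff α P| * (K * 2 ^ K * r) := by
    intro α hα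
    rw [← mul_sub, abs_mul]
    refine mul_le_mul_of_nonneg_left ?_ (abs_nonneg _)
    refine (prod_lipR (by norm_num : (1 : ℝ) ≤ 2) hr0 hu2 hx2 hr' (fun i => α i)
      Finset.univ).trans ?_
    have h3 : ∑ i, α i ≤ K := by
      have h4 := MvPolynomial.le_totalDegree hα
      rw [Finsupp.sum_fintype _ _ (fun _ => rfl)] at h4
      exact h4.trans hK
    have h5 : ((∑ i, α i : ℕ) : ℝ) ≤ K := by exact_mod_cast h3
    have h6 : (2 : ℝ) ^ (∑ i, α i) ≤ 2 ^ K := pow_le_pow_right₀ (by norm_num) h3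
    exact mul_le_mul_of_nonneg_right (mul_le_mul h5 h6 (by positivity) (Nat.cast_nonneg _)) hr0
  refine (Finset.sum_le_sum h2).trans ?_
  rw [← Finset.sum_mul]
  have h7 : (∑ α ∈ P.support, |coeff α P|) * (K * 2 ^ K * r) ≤ N * (K * 2 ^ K * r) :=
    mul_le_mul_of_nonneg_right hN (by positivity)
  linarith

/-- The sum of the coefficients, from a bound of the coefficients. -/
theorem cs_le {P : Pl m} {K : ℕ} {b : ℝ} (hK : P.totalDegree ≤ K)
    (hb : ∀ α, |coeff α P| ≤ b) : coefSum P ≤ (expBox (Fin m) K).card * b := by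
  rw [coefSum_eq_box P K hK]
  refine (Finset.sum_le_sum fun α _ => hb α).trans (le_of_eq ?_)
  rw [Finset.sum_const, nsmul_eq_mul]

/-! ### The elimination -/

/-- Substitution of the sheets. -/
noncomputable def el (e : ℕ) (o : Fin m → Option (ℤ × Pl m)) : ℕ → Fin m → Pl m
  | 0, d => X d
  | j + 1, d => match o d with
    | none => X d
    | some q => C ((q.1 : ℝ) / 2 ^ e) + bind₁ (el e o j) q.2

theorem el_none {e : ℕ} {o : Fin m → Option (ℤ × Pl m)} {d : Fin m} (h : o d = none) (j : ℕ) :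
    el e o j d = X d := by
  cases j with
  | zero => rfl
  | succ j => rw [el, h]

theorem el_some {e : ℕ} {o : Fin m → Option (ℤ × Pl m)} {d : Fin m} {q : ℤ × Pl m}
    (h : o d = some q) (j : ℕ) :
    el e o (j + 1) d = C ((q.1 : ℝ) / 2 ^ e) + bind₁ (el e o j) q.2 := by
  rw [el, h]

theorem el_vars {e : ℕ} {o : Fin m → Option (ℤ × Pl m)}
    (ho : ∀ d q, o d = some q → ∀ i ∈ q.2.vars, i < d) :
    ∀ (j : ℕ) (d : Fin m), (d : ℕ) < j → ∀ i ∈ (el e o j d).vars, o i = none ∧ i ≤ d := by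
  classical
  intro j
  induction j with
  | zero => intro d hd; exact absurd hd (Nat.not_lt_zero _)
  | succ j ih =>
    intro d hd i hi
    rcases hod : o d with _ | q
    · rw [el_none hod] at hi
      rw [vars_X, Finset.mem_singleton] at hi
      rw [hi]
      exact ⟨hod, le_rfl⟩
    · rw [el_some hod] at hi
      have h1 := MvPolynomial.vars_add_subset _ _ hi
      rw [vars_C, Finset.empty_union] at h1
      obtain ⟨k, hk, hik⟩ := mem_vars_bind₁ _ _ h1
      have hkd : k < d := ho d q hod k hk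
      have hkj : (k : ℕ) < j := lt_of_lt_of_le hkd (Nat.lt_succ_iff.1 hd)
      obtain ⟨h2, h3⟩ := ih k hkj i hik
      exact ⟨h2, h3.trans hkd.le⟩

theorem bind_deg {g : Fin m → Pl m} {P : Pl m} {d K : ℕ} (hg : ∀ i, (g i).totalDegree ≤ d)
    (hP : P.totalDegree ≤ K) : (bind₁ g P).totalDegree ≤ d * K :=
  (Pool.KS3.SML.totalDegree_bind_le g d hg P).trans (Nat.mul_le_mul_left d hP)

theorem el_deg {e K : ℕ} (hK : 1 ≤ K) {o : Fin m → Option (ℤ × Pl m)}
    (ho : ∀ d q, o d = some q → q.2.totalDegree ≤ K) :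
    ∀ (j : ℕ) (d : Fin m), (el e o j d).totalDegree ≤ K ^ j := by
  intro j
  induction j with
  | zero => intro d; exact (totalDegree_X d).le
  | succ j ih =>
    intro d
    rcases hod : o d with _ | q
    · rw [el_none hod, totalDegree_X]
      exact Nat.one_le_pow _ _ hK
    · rw [el_some hod]
      refine (totalDegree_add _ _).trans (max_le ?_ ?_)
      · rw [totalDegree_C]
        exact Nat.zero_le _
      · exact (bind_deg ih (ho d q hod)).trans (le_of_eq (pow_succ K j).symm)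

theorem el_cs {e K : ℕ} {N : ℝ} (hN : 1 ≤ N) {o : Fin m → Option (ℤ × Pl m)}
    (ho : ∀ d q, o d = some q → q.2.totalDegree ≤ K ∧ coefSum q.2 ≤ N ∧
      |(q.1 : ℝ) / 2 ^ e| ≤ N) :
    ∀ (j : ℕ) (d : Fin m), coefSum (el e o j d) ≤ (2 * N) ^ ((K + 1) ^ j) := by
  have h2N : (1 : ℝ) ≤ 2 * N := by linarith
  have hN0 : (0 : ℝ) ≤ N := by linarith
  intro j
  induction j with
  | zero =>
    intro d
    change coefSum (X d : Pl m) ≤ _
    rw [coefSum_X]
    exact one_le_pow₀ h2N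
  | succ j ih =>
    intro d
    rcases hod : o d with _ | q
    · rw [el_none hod, coefSum_X]
      exact one_le_pow₀ h2N
    · rw [el_some hod]
      obtain ⟨a1, a2, a3⟩ := ho d q hod
      have hB : (1 : ℝ) ≤ (2 * N) ^ ((K + 1) ^ j) := one_le_pow₀ h2N
      have h1 : coefSum (bind₁ (el e o j) q.2) ≤ ((2 * N) ^ ((K + 1) ^ j)) ^ K * N := by
        refine (coefSum_aeval_le q.2 (el e o j) _ hB ih).trans ?_
        exact mul_le_mul (pow_le_pow_right₀ hB a1) a2 (coefSum_nonneg _) (by positivity)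
      have h2 : (1 : ℝ) ≤ ((2 * N) ^ ((K + 1) ^ j)) ^ K := one_le_pow₀ hB
      refine (coefSum_add_le _ _).trans ?_
      rw [coefSum_C]
      have h3 : |(q.1 : ℝ) / 2 ^ e| ≤ ((2 * N) ^ ((K + 1) ^ j)) ^ K * N := by
        refine a3.trans ?_
        have := mul_le_mul_of_nonneg_right h2 hN0
        linarith
      have h4 : ((2 * N) ^ ((K + 1) ^ j)) ^ K * N + ((2 * N) ^ ((K + 1) ^ j)) ^ K * N =
          (2 * N) ^ (((K + 1) ^ j) * K + 1) := by
        rw [pow_succ, pow_mul]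
        ring
      have h5 : ((K + 1) ^ j) * K + 1 ≤ (K + 1) ^ (j + 1) := by
        rw [pow_succ, Nat.mul_add, Nat.mul_one]
        exact Nat.add_le_add_left (Nat.one_le_pow _ _ (Nat.succ_pos K)) _
      have h6 := pow_le_pow_right₀ h2N h5
      linarith

/-- **The elimination is exact up to rounding.** -/
theorem el_near {e K : ℕ} {N δ : ℝ} (hN : 0 ≤ N) (hδ : 0 ≤ δ) {o : Fin m → Option (ℤ × Pl m)}
    {x : Fin m → ℝ} (hx : ∀ i, |x i| ≤ 1)
    (ho : ∀ d q, o d = some q → (∀ i ∈ q.2.vars, i < d) ∧ q.2.totalDegree ≤ K ∧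
      coefSum q.2 ≤ N ∧ |x d - ((q.1 : ℝ) / 2 ^ e + eval x q.2)| ≤ δ)
    (hs : δ * (K * 2 ^ K * N + 1) ^ m ≤ 1) :
    ∀ (j : ℕ), j ≤ m → ∀ d : Fin m, (d : ℕ) < j →
      |eval x (el e o j d) - x d| ≤ δ * (K * 2 ^ K * N + 1) ^ j := by
  have hL0 : (0 : ℝ) ≤ K * 2 ^ K * N := by positivity
  have hL1 : (1 : ℝ) ≤ K * 2 ^ K * N + 1 := by linarith
  intro j
  induction j with
  | zero => intro _ d hd; exact absurd hd (Nat.not_lt_zero _)
  | succ j ih =>
    intro hj d hd
    have hpos : (0 : ℝ) ≤ δ * (K * 2 ^ K * N + 1) ^ (j + 1) := by positivity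
    rcases hod : o d with _ | q
    · rw [el_none hod, eval_X, sub_self, abs_zero]
      exact hpos
    · rw [el_some hod, map_add, eval_C]
      obtain ⟨a1, a2, a3, a4⟩ := ho d q hod
      have h1 : eval x (bind₁ (el e o j) q.2) = eval (fun i => eval x (el e o j i)) q.2 := by
        have h := aeval_bind₁ (R := ℝ) (S := ℝ) (f := x) (g := el e o j) (φ := q.2)
        rw [← MvPolynomial.coe_aeval_eq_eval, ← MvPolynomial.coe_aeval_eq_eval]
        simpa using h
      have hrj : δ * (K * 2 ^ K * N + 1) ^ j ≤ 1 := by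
        refine le_trans ?_ hs
        exact mul_le_mul_of_nonneg_left (pow_le_pow_right₀ hL1 (Nat.le_of_succ_le hj)) hδ
      have h2 := lip_cs (u := fun i => eval x (el e o j i)) a2 a3 hx (by positivity) hrj
        (fun i hi => ih (Nat.le_of_succ_le hj) i
          (lt_of_lt_of_le (a1 i hi) (Nat.lt_succ_iff.1 hd)))
      rw [h1]
      have h3 : (q.1 : ℝ) / 2 ^ e + eval (fun i => eval x (el e o j i)) q.2 - x d =
          (eval (fun i => eval x (el e o j i)) q.2 - eval x q.2) -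
            (x d - ((q.1 : ℝ) / 2 ^ e + eval x q.2)) := by ring
      rw [h3]
      refine (abs_sub _ _).trans ?_
      have h4 : (1 : ℝ) ≤ (K * 2 ^ K * N + 1) ^ j := one_le_pow₀ hL1
      have h5 : δ ≤ δ * (K * 2 ^ K * N + 1) ^ j := by
        have := mul_le_mul_of_nonneg_left h4 hδ
        linarith
      have e5 : δ * (K * 2 ^ K * N + 1) ^ (j + 1) =
          K * 2 ^ K * N * (δ * (K * 2 ^ K * N + 1) ^ j) + δ * (K * 2 ^ K * N + 1) ^ j := by
        rw [pow_succ]
        ring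
      rw [e5]
      linarith

end Pool.TIE
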