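import Pool.Agent.H77.TIE.StepH

/-!
# One step: the hypotheses of the core hold
-/

set_option autoImplicit false

namespace Pool.TIE

open Finset MvPolynomial
open Pool.Agent.H49.Ent Pool.Agent.H32.Dense Pool.STK Pool.BFL
open Pool.KAL (coefSum coefSum_nonneg abs_coeff_le expBox)

variable {m : ℕ}

theorem floor_near {u u' : ℝ} (h : |u - u'| < 1) : |((⌊u⌋ - ⌊u'⌋ : ℤ) : ℝ)| ≤ 1 := by
  have a1 := Int.floor_le u
  have a2 := Int.lt_floor_add_one u
  have a3 := Int.floor_le u'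
  have a4 := Int.lt_floor_add_one u'
  rw [abs_lt] at h
  have h1 : ((⌊u⌋ - ⌊u'⌋ : ℤ) : ℝ) < 2 := by
    push_cast
    linarith [h.2]
  have h2 : (-2 : ℝ) < ((⌊u⌋ - ⌊u'⌋ : ℤ) : ℝ) := by
    push_cast
    linarith [h.1]
  have h3 : ⌊u⌋ - ⌊u'⌋ < 2 := by exact_mod_cast h1
  have h4 : -2 < ⌊u⌋ - ⌊u'⌋ := by exact_mod_cast h2
  have h5 : ⌊u⌋ - ⌊u'⌋ ≤ 1 := by omega
  have h6 : -1 ≤ ⌊u⌋ - ⌊u'⌋ := by omega
  rw [abs_le]
  constructor
  · exact_mod_cast h6
  · exact_mod_cast h5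

theorem dg_shift {h : ℕ} {x x' y : ℝ} (e : dg h (x - y) = dg h (x' - y)) :
    |((dg h x - dg h x' : ℤ) : ℝ)| ≤ 1 := by
  unfold dg at e ⊢
  refine floor_near ?_
  have a1 := Int.floor_le ((2 : ℝ) ^ h * (x - y))
  have a2 := Int.lt_floor_add_one ((2 : ℝ) ^ h * (x - y))
  have a3 := Int.floor_le ((2 : ℝ) ^ h * (x' - y))
  have a4 := Int.lt_floor_add_one ((2 : ℝ) ^ h * (x' - y))
  rw [← e] at a3 a4
  have e1 : (2 : ℝ) ^ h * x - 2 ^ h * x' = 2 ^ h * (x - y) - 2 ^ h * (x' - y) := by ring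
  rw [e1, abs_lt]
  constructor <;> linarith

theorem dg_shift' {h : ℕ} {x x' y : ℝ} (e : dg h x = dg h x') :
    |((dg h (x - y) - dg h (x' - y) : ℤ) : ℝ)| ≤ 1 := by
  refine dg_shift (y := -y) ?_
  rw [sub_neg_eq_add, sub_add_cancel, sub_neg_eq_add, sub_add_cancel]
  exact e

/-- Integers of `X` digits. -/
theorem CH_box {Ω T : Type} [Fintype Ω] {p : Ω → ℝ} (hp : IsLaw p) {k X : ℕ} (Y : Ω → Fin k → ℤ)
    (hY : ∀ ω i, 0 ≤ Y ω i ∧ Y ω i < 2 ^ X) (W : Ω → T) : CH p Y W ≤ k * (X * Real.log 2) := by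
  classical
  have h := CH_le_card hp.nonneg hp.sum_one Y W
    (fun _ => Fintype.piFinset fun _ : Fin k => Finset.Ico (0 : ℤ) (2 ^ X))
    (fun ω _ => Fintype.mem_piFinset.2 fun i => Finset.mem_Ico.2 (hY ω i))
  rw [Ex_const hp.sum_one, Fintype.card_piFinset] at h
  simp only [Int.card_Ico, sub_zero, Finset.prod_const, Finset.card_univ, Fintype.card_fin] at h
  have e : ((2 : ℤ) ^ X).toNat = 2 ^ X := by
    have : ((2 : ℤ) ^ X) = ((2 ^ X : ℕ) : ℤ) := by push_cast; rfl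
    rw [this, Int.toNat_natCast]
  rw [e] at h
  push_cast at h
  rw [Real.log_pow, Real.log_pow] at h
  exact h

theorem CH_box1 {Ω T : Type} [Fintype Ω] {p : Ω → ℝ} (hp : IsLaw p) {X : ℕ} (Y : Ω → ℤ)
    (hY : ∀ ω, 0 ≤ Y ω ∧ Y ω < 2 ^ X) (W : Ω → T) : CH p Y W ≤ X * Real.log 2 := by
  have h := CH_box hp (k := 1) (fun ω _ => Y ω) (fun ω _ => hY ω) W
  have e : CH p Y W = CH p (fun ω (_ : Fin 1) => Y ω) W := by
    refine CH_congr hp.nonneg ?_ ?_ (fun _ _ _ _ h => h) (fun _ _ _ _ h => h)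
    · intro ω ω' _ _ hh
      funext k
      exact (Prod.ext_iff.mp hh).1
    · intro ω ω' _ _ hh
      exact congrFun (Prod.ext_iff.mp hh).1 0
  rw [e]
  simpa using h

theorem CH_one {Ω T : Type} [Fintype Ω] {p : Ω → ℝ} (hp : IsLaw p) (a : Ω → ℤ) (Y : Ω → T)
    (h : ∀ ω ω', Y ω = Y ω' → |((a ω - a ω' : ℤ) : ℝ)| ≤ 1) : CH p a Y ≤ Real.log 3 := by
  have h1 := CH_le_int hp.nonneg hp.sum_one a Y (fun _ => 1) (fun ω ω' _ _ e => h ω ω' e)
  rw [Ex_const hp.sum_one] at h1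
  refine h1.trans (le_of_eq ?_)
  norm_num

/-- Data processing. -/
theorem mi_left {Ω S T U V : Type} [Fintype Ω] {p : Ω → ℝ} (hp : ∀ ω, 0 ≤ p ω) {X : Ω → S}
    {G : Ω → T} (hG : Det p X G) (A : Ω → U) (B : Ω → V) {θ : ℝ}
    (h : CH p X A ≤ CH p X (fun ω => (B ω, A ω)) + θ) :
    CH p G A ≤ CH p G (fun ω => (B ω, A ω)) + θ := by
  have h1 : CH p (fun ω => (X ω, G ω)) A = CH p X A :=
    CH_congr hp (fun _ _ _ _ e => (Prod.ext_iff.1 (Prod.ext_iff.1 e).1).1)
      (fun ω ω' a b e => Prod.ext (Prod.ext_iff.1 e).1 (hG ω ω' a b (Prod.ext_iff.1 e).1))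
      (fun _ _ _ _ e => e) (fun _ _ _ _ e => e)
  have h2 : CH p (fun ω => (X ω, G ω)) (fun ω => (B ω, A ω)) = CH p X (fun ω => (B ω, A ω)) :=
    CH_congr hp (fun _ _ _ _ e => (Prod.ext_iff.1 (Prod.ext_iff.1 e).1).1)
      (fun ω ω' a b e => Prod.ext (Prod.ext_iff.1 e).1 (hG ω ω' a b (Prod.ext_iff.1 e).1))
      (fun _ _ _ _ e => e) (fun _ _ _ _ e => e)
  have h3 := CH_chain hp X G A
  have h4 := CH_chain hp X G (fun ω => (B ω, A ω))
  have h5 : CH p X (fun ω => (G ω, (B ω, A ω))) ≤ CH p X (fun ω => (G ω, A ω)) :=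
    CH_mono_cond hp fun _ _ _ _ e => by
      have e1 := Prod.ext_iff.1 e
      exact Prod.ext e1.1 (Prod.ext_iff.1 e1.2).2
  linarith

section

variable {D : Dat m} {M : Finset (Fin m)} {c c' : Fin m} {h K : ℕ} {b θ c₀ κ π : ℝ}
  {F F' : D.Ω → Pl m}

theorem wf_eq {N : Finset (Fin m)} {ω ω' : D.Ω}
    (h : (fun i => D.V ω (ix N i)) = fun i => D.V ω' (ix N i)) :
    ∀ d ∈ N, D.V ω d = D.V ω' d := by
  intro d hd
  obtain ⟨i, rfl⟩ := ix_surj hd
  exact congrFun h i

theorem v_onv (hF : ∀ ω, (F ω).vars ⊆ M) (ω : D.Ω) :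
    (onv c' (fun d => if d ∈ M.erase c' then D.v ω d else 0) (F ω)).eval
      ((D.V ω c' : ℝ) / 2 ^ D.X) = eval (D.v ω) (F ω) := by
  rw [eval_onv]
  refine eval_congr_vars fun d hd => ?_
  by_cases hdc : d = c'
  · rw [if_pos hdc, hdc]
    rfl
  · rw [if_neg hdc, if_pos (Finset.mem_erase.2 ⟨hdc, hF ω hd⟩)]

/-- **The hypotheses of the core.** -/
theorem coreH (hK : 1 ≤ K) (hb : 0 ≤ b) (hc : c ∈ M) (hc' : c' ∈ M) (hcc : c < c')
    (hh : h ≤ D.h₀) (hs : (tS m K : ℝ) * (b + 1) ≤ D.X) (hH : Hyp D K b θ)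
    (hN : NFd D h c₀ κ π) (hM : FulM D M c c' θ) (hF : Claim D (M.erase c) h K b θ F)
    (hF' : Claim D (M.erase c') h K b θ F') :
    CoreH D.p (fun ω => (D.out M ω, D.z ω)) (fun ω => D.s ω c') (fun ω => (D.s ω c, F ω))
      (fun ω i => D.V ω (ix (M.erase c') i)) (fun ω => D.V ω c') D.nr
      (fun ω => res (M.erase c') (D.sb M ω c')) (fun ω => res (M.erase c') (F' ω))
      (fun ω => onv c' (fun d => if d ∈ M.erase c' then D.v ω d else 0) (F ω)) D.X h
      (K ^ (m + 1)) ((tS m K : ℝ) * (b + 1)) (5 * θ + (tS m K : ℝ) * (b + 1) + 4) c₀ κ π := by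
  classical
  have hp := hH.isLaw
  have hp0 := hp.nonneg
  have hθ : 0 ≤ θ := (CH_nonneg hp0 _ _).trans hF.few
  have hTb : 0 ≤ (tS m K : ℝ) * (b + 1) := mul_nonneg (Nat.cast_nonneg _) (by linarith)
  have hl3 : Real.log 3 ≤ 2 := by
    have := Real.log_le_sub_one_of_pos (show (0 : ℝ) < 3 by norm_num)
    linarith
  have hKp : K ≤ K ^ (m + 1) := by
    calc K = K ^ 1 := (pow_one K).symm
      _ ≤ K ^ (m + 1) := Nat.pow_le_pow_right hK (by omega)
  have hcs : ∀ G : Pl m, G.totalDegree ≤ K → (∀ α, |coeff α G| ≤ (2 : ℝ) ^ b) →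
      coefSum G ≤ (2 : ℝ) ^ ((tS m K : ℝ) * (b + 1)) := by
    intro G h1 h2
    have h3 := cs_le h1 h2
    have h4 := nN_pow_le m K hb (n := 1) (Nat.one_le_pow _ _ (Nat.succ_pos K))
    rw [pow_one] at h4
    have h5 : ((expBox (Fin m) K).card : ℝ) * 2 ^ b ≤ nN m K b := by
      unfold nN
      linarith
    linarith [nN_ge m K b]
  have hFM : ∀ ω, (F ω).vars ⊆ M := fun ω => (hF.vars ω).trans (Finset.erase_subset _ _)
  have hnh : ∀ ω, dg h (D.nr ω -
      (onv c' (fun d => if d ∈ M.erase c' then D.v ω d else 0) (F ω)).eval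
        ((D.V ω c' : ℝ) / 2 ^ D.X)) = D.hF h F ω := by
    intro ω
    rw [v_onv hFM]
    rfl
  have hsbv : ∀ ω, (D.sb M ω c').vars ⊆ M.erase c' := fun ω i hi => by
    obtain ⟨h1, h2⟩ := Dat.sb_vars hH M ω c' i hi
    exact Finset.mem_erase.2 ⟨h2.ne, h1⟩
  have hSa : ∀ ω, dg D.X ((D.V ω c' : ℝ) / 2 ^ D.X -
      eval (fun i => (D.V ω (ix (M.erase c') i) : ℝ) / 2 ^ D.X)
        (res (M.erase c') (D.sb M ω c'))) = D.ha M c' ω := by
    intro ω
    have := eval_res (hsbv ω) (D.v ω)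
    unfold Dat.ha
    rw [← this]
    rfl
  have hF2 : ∀ ω, dg h (D.nr ω -
      eval (fun i => (D.V ω (ix (M.erase c') i) : ℝ) / 2 ^ D.X)
        (res (M.erase c') (F' ω))) = D.hF h F' ω := by
    intro ω
    have := eval_res (hF'.vars ω) (D.v ω)
    unfold Dat.hF
    rw [← this]
    rfl
  -- cardinalities
  have hk1 : (M.erase c').card + 1 = M.card := Finset.card_erase_add_one hc'
  have hk1' : (M.erase c).card + 1 = M.card := Finset.card_erase_add_one hc
  have hc'e : c' ∈ M.erase c := Finset.mem_erase.2 ⟨hcc.ne', hc'⟩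
  have hk2 : ((M.erase c).erase c').card + 1 = (M.erase c).card :=
    Finset.card_erase_add_one hc'e
  have hk1R : ((M.erase c').card : ℝ) + 1 = M.card := by exact_mod_cast hk1
  have hk2R : (((M.erase c).erase c').card : ℝ) + 1 = (M.erase c).card := by exact_mod_cast hk2
  -- determinacy
  have dV : ∀ ω ω', D.out M ω = D.out M ω' → (∀ d ∈ M.erase c', D.V ω d = D.V ω' d) →
      D.V ω c' = D.V ω' c' → D.V ω = D.V ω' := by
    intro ω ω' ho h1 h2
    refine D.V_det_out hH.s_vars ho (Dat.on_congr fun d hd => ?_)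
    by_cases hdc : d = c'
    · rw [hdc]
      exact h2
    · exact h1 d (Finset.mem_erase.2 ⟨hdc, hd⟩)
  have dlt : ∀ ω ω', D.out M ω = D.out M ω' →
      (∀ d ∈ (M.erase c).erase c', D.V ω d = D.V ω' d) → ∀ d, d < c → D.V ω d = D.V ω' d := by
    intro ω ω' ho h1
    exact Dat.V_det_lt hH.s_vars ho fun i hi hic =>
      h1 i (Finset.mem_erase.2 ⟨(hic.trans hcc).ne, Finset.mem_erase.2 ⟨hic.ne, hi⟩⟩)
  have dsub : ∀ d ∈ (M.erase c).erase c', d ∈ M.erase c' := fun d hd => by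
    rw [Finset.mem_erase, Finset.mem_erase] at hd
    exact Finset.mem_erase.2 ⟨hd.1, hd.2.2⟩
  have dht : ∀ ω ω', D.out M ω = D.out M ω' → (∀ d ∈ M.erase c', D.V ω d = D.V ω' d) →
      D.s ω c = D.s ω' c → D.ht c ω = D.ht c ω' := by
    intro ω ω' ho h1 h2
    refine Dat.ht_det h2 (h1 c (Finset.mem_erase.2 ⟨hcc.ne, hc⟩)) fun d hd => ?_
    exact dlt ω ω' ho (fun d hd => h1 d (dsub d hd)) d (hH.s_vars ω c d hd)
  -- few values of the claims
  have few1 : CH D.p F (fun ω => (D.out (M.erase c) ω, D.z ω)) ≤ θ := hF.few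
  -- the digits of the height
  obtain ⟨g, hg⟩ : ∃ g : D.Ω → ℤ, g = fun ω => dg h (D.nr ω) := ⟨_, rfl⟩
  obtain ⟨nh, hnhd⟩ : ∃ nh : D.Ω → ℤ, nh = fun ω => D.hF h F ω := ⟨_, rfl⟩
  have g_s : CH D.p g (fun ω => (D.V ω, D.z ω)) ≤
      CH D.p g (fun ω => (D.s ω, (D.V ω, D.z ω))) + θ := by
    refine mi_left hp0 (X := D.nu) (fun ω ω' _ _ e => ?_) _ _ hH.nu_s
    rw [hg]
    simp only [Dat.nr]
    rw [e]
  have F_s : CH D.p F (fun ω => (D.s ω, (D.V ω, D.z ω))) ≤ θ := by
    refine (CH_mono_cond hp0 fun ω ω' _ _ e => ?_).trans few1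
    simp only [Prod.mk.injEq] at e
    exact Prod.ext (Dat.out_det e.2.1 e.1) e.2.2
  have g_F : CH D.p g (fun ω => (D.V ω, D.z ω)) ≤
      CH D.p g (fun ω => (F ω, (D.s ω, (D.V ω, D.z ω)))) + 2 * θ := by
    have := CH_le_add hp0 g F (fun ω => (D.s ω, (D.V ω, D.z ω)))
    linarith
  refine
    { isLaw := hp
      hX := ?_
      W_lt := fun ω i => hH.V_lt ω _
      t_lt := fun ω => hH.V_lt ω _
      S_det := ?_
      P_det := ?_
      S_deg := fun ω => (res_deg _ _).trans (Dat.sb_deg hK hH M ω c')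
      F_deg := fun ω => ((res_deg _ _).trans (hF'.deg ω)).trans hKp
      P_deg := fun ω => ((onv_deg _ _ _).trans (hF.deg ω)).trans hKp
      S_cf := fun ω α => (abs_coeff_le _ α).trans ((res_cs _ _).trans (Dat.sb_cs hb hH M ω c'))
      F_cf := fun ω α => (abs_coeff_le _ α).trans ((res_cs _ _).trans
        (hcs _ (hF'.deg ω) (hF'.cf ω)))
      P_cf := fun ω i => ?_
      nu_le := fun ω => ?_
      full := ?_
      fullW := ?_
      fullt := ?_
      few := ?_
      nuQR := ?_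
      nf := ?_ }
  · have := hH.h_le
    omega
  · -- S_det
    intro ω ω' _ _ e
    simp only [Prod.mk.injEq] at e
    simp only [Dat.sb]
    rw [e.1, e.2.1]
  · -- P_det
    intro ω ω' _ _ e
    simp only [Prod.mk.injEq] at e
    have e1 := wf_eq e.1
    simp only
    rw [e.2.1.2]
    congr 1
    funext d
    by_cases hd : d ∈ M.erase c'
    · rw [if_pos hd, if_pos hd, D.v_congr (e1 d hd)]
    · rw [if_neg hd, if_neg hd]
  · -- P_cf
    refine (onv_cf c' (fun d => ?_) (F ω) i).trans (hcs _ (hF.deg ω) (hF.cf ω))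
    split_ifs
    · exact Dat.v_leS hH ω d
    · rw [abs_zero]
      exact zero_le_one
  · -- nu_le
    refine (hH.nr_le ω).trans (Real.rpow_le_rpow_of_exponent_le one_le_two ?_)
    have h1 : (1 : ℝ) ≤ tS m K := by
      have : 1 ≤ tS m K := by
        unfold tS nA
        omega
      exact_mod_cast this
    nlinarith
  · -- full
    have h1 : CH D.p (D.on M) (fun ω => ((D.s ω c, D.s ω c'), (D.out M ω, D.z ω))) ≤
        CH D.p (fun ω => ((fun i => D.V ω (ix (M.erase c') i)), D.V ω c'))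
          (fun ω => (D.s ω c', (D.out M ω, D.z ω))) := by
      refine (CH_mono_left hp0 fun ω ω' _ _ e => ?_).trans
        (CH_mono_cond hp0 fun ω ω' _ _ e => ?_)
      · simp only [Prod.mk.injEq] at e
        have e1 := wf_eq e.1.1
        refine Dat.on_congr fun d hd => ?_
        by_cases hdc : d = c'
        · rw [hdc]
          exact e.1.2
        · exact e1 d (Finset.mem_erase.2 ⟨hdc, hd⟩)
      · simp only [Prod.mk.injEq] at e
        exact Prod.ext e.1.2 (Prod.ext e.2.1 e.2.2)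
    have h2 := hM
    unfold FulM at h2
    rw [← hk1R] at h2
    linarith
  · -- fullW
    simp only [hSa, hF2]
    have h1 := hF'.full
    have h2 : CH D.p (D.on (M.erase c'))
        (fun ω => (D.hF h F' ω, (F' ω, (D.out (M.erase c') ω, D.z ω)))) ≤
        CH D.p (fun ω i => D.V ω (ix (M.erase c') i)) (fun ω => (D.ht c' ω,
          (D.ha M c' ω, (D.hF h F' ω, (F' ω, (D.s ω c', (D.out M ω, D.z ω))))))) +
          CH D.p (D.ha M c') (fun ω => (D.ht c' ω, (D.hF h F' ω, (F' ω, (D.s ω c',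
            (D.out M ω, D.z ω)))))) := by
      have a1 := CH_le_add hp0 (fun ω i => D.V ω (ix (M.erase c') i)) (D.ha M c')
        (fun ω => (D.ht c' ω, (D.hF h F' ω, (F' ω, (D.s ω c', (D.out M ω, D.z ω))))))
      have a2 : CH D.p (D.on (M.erase c'))
          (fun ω => (D.hF h F' ω, (F' ω, (D.out (M.erase c') ω, D.z ω)))) ≤
          CH D.p (fun ω i => D.V ω (ix (M.erase c') i))
            (fun ω => (D.ht c' ω, (D.hF h F' ω, (F' ω, (D.s ω c', (D.out M ω, D.z ω)))))) := by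
        refine (CH_mono_left hp0 fun ω ω' _ _ e => ?_).trans
          (CH_mono_cond hp0 fun ω ω' _ _ e => ?_)
        · simp only [Prod.mk.injEq] at e
          exact Dat.on_congr (wf_eq e.1)
        · simp only [Prod.mk.injEq] at e
          obtain ⟨b1, b2, b3, b4⟩ := e
          have b5 := D.out_some b3 (Finset.notMem_erase c' M)
          exact Prod.ext b5.1 (Prod.ext b1 (Prod.ext b2 (Prod.ext b5.2
            (Prod.ext (Dat.out_of_erase b3) b4))))
      have a3 : CH D.p (fun ω i => D.V ω (ix (M.erase c') i)) (fun ω => (D.ha M c' ω,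
          (D.ht c' ω, (D.hF h F' ω, (F' ω, (D.s ω c', (D.out M ω, D.z ω))))))) =
          CH D.p (fun ω i => D.V ω (ix (M.erase c') i)) (fun ω => (D.ht c' ω,
          (D.ha M c' ω, (D.hF h F' ω, (F' ω, (D.s ω c', (D.out M ω, D.z ω))))))) := by
        refine CH_congr hp0 (fun _ _ _ _ e => (Prod.ext_iff.1 e).1)
          (fun _ _ _ _ e => (Prod.ext_iff.1 e).1) (fun ω ω' _ _ e => ?_) (fun ω ω' _ _ e => ?_) <;>
        · simp only [Prod.mk.injEq] at e ⊢
          tauto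
      linarith
    have h3 := CH_close hp (D.ha M c') (D.ht c') (fun ω => (D.hF h F' ω, (F' ω, (D.s ω c',
      (D.out M ω, D.z ω))))) (fun ω => Dat.ha_near hb hH hs M ω c')
    have h4 := log_close hTb
    have h5 : CH D.p (fun ω i => D.V ω (ix (M.erase c') i)) (fun ω => (D.ht c' ω,
        (D.ha M c' ω, (D.hF h F' ω, (F' ω, (D.s ω c', (D.out M ω, D.z ω))))))) ≤
        CH D.p (fun ω i => D.V ω (ix (M.erase c') i)) (fun ω => (D.hF h F' ω,
          (res (M.erase c') (F' ω), (D.ha M c' ω, (D.s ω c', (D.out M ω, D.z ω)))))) := by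
      refine CH_mono_cond hp0 fun ω ω' _ _ e => ?_
      simp only [Prod.mk.injEq] at e ⊢
      obtain ⟨b1, b2, b3, b4, b5, b6, b7⟩ := e
      exact ⟨b3, by rw [b4], b2, b5, b6, b7⟩
    linarith
  · -- fullt
    simp only [hnh]
    have hnhd' : (fun ω => (D.hF h F ω, ((fun i => D.V ω (ix (M.erase c') i)),
        ((D.s ω c, F ω), (D.s ω c', (D.out M ω, D.z ω)))))) = fun ω => (nh ω,
        ((fun i => D.V ω (ix (M.erase c') i)), ((D.s ω c, F ω), (D.s ω c', (D.out M ω, D.z ω))))) := by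
      rw [hnhd]
    rw [hnhd']
    obtain ⟨t, ht⟩ : ∃ t : D.Ω → ℤ, t = fun ω => D.V ω c' := ⟨_, rfl⟩
    have htt : (fun ω => D.V ω c') = t := ht.symm
    rw [htt]
    obtain ⟨W, hW⟩ : ∃ W : D.Ω → Fin (M.erase c').card → ℤ,
      W = fun ω i => D.V ω (ix (M.erase c') i) := ⟨_, rfl⟩
    have hWW : ∀ ω, (fun i => D.V ω (ix (M.erase c') i)) = W ω := fun ω => by rw [hW]
    simp only [hWW]
    have eW : ∀ {ω ω'}, W ω = W ω' → ∀ d ∈ M.erase c', D.V ω d = D.V ω' d := by
      intro ω ω' e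
      rw [hW] at e
      exact wf_eq e
    have et : ∀ {ω ω'}, t ω = t ω' → D.V ω c' = D.V ω' c' := by
      intro ω ω' e
      rwa [ht] at e
    have hWb : ∀ (T : Type) (Y : D.Ω → T), CH D.p W Y ≤
        (M.erase c').card * (D.X * Real.log 2) := by
      intro T Y
      rw [hW]
      exact CH_box hp _ (fun ω i => hH.V_lt ω _) Y
    have htb : ∀ (T : Type) (Y : D.Ω → T), CH D.p t Y ≤ D.X * Real.log 2 := by
      intro T Y
      rw [ht]
      exact CH_box1 hp _ (fun ω => hH.V_lt ω _) Y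
    -- (i) t is full given W, the two shapes
    have s1 : D.X * Real.log 2 - θ ≤
        CH D.p t (fun ω => (W ω, ((D.s ω c, D.s ω c'), (D.out M ω, D.z ω)))) := by
      have a1 := hM
      unfold FulM at a1
      have a2 : CH D.p (D.on M) (fun ω => ((D.s ω c, D.s ω c'), (D.out M ω, D.z ω))) ≤
          CH D.p (fun ω => (t ω, W ω)) (fun ω => ((D.s ω c, D.s ω c'), (D.out M ω, D.z ω))) := by
        refine CH_mono_left hp0 fun ω ω' _ _ e => ?_
        simp only [Prod.mk.injEq] at e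
        refine Dat.on_congr fun d hd => ?_
        by_cases hdc : d = c'
        · rw [hdc]
          exact et e.1.1
        · exact eW e.1.2 d (Finset.mem_erase.2 ⟨hdc, hd⟩)
      rw [CH_chain hp0] at a2
      have a3 := hWb _ (fun ω => ((D.s ω c, D.s ω c'), (D.out M ω, D.z ω)))
      rw [← hk1R] at a1
      have e1 : (((M.erase c').card : ℝ) + 1) * (D.X * Real.log 2) =
        (M.erase c').card * (D.X * Real.log 2) + D.X * Real.log 2 := by ring
      rw [e1] at a1
      linarith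
    -- (ii) and given F
    have s2 : D.X * Real.log 2 - 2 * θ ≤
        CH D.p t (fun ω => (W ω, ((D.s ω c, F ω), (D.s ω c', (D.out M ω, D.z ω))))) := by
      have a1 := CH_ge_sub hp0 t F (fun ω => (W ω, ((D.s ω c, D.s ω c'), (D.out M ω, D.z ω))))
      have a2 : CH D.p F (fun ω => (W ω, ((D.s ω c, D.s ω c'), (D.out M ω, D.z ω)))) ≤ θ := by
        refine (CH_mono_cond hp0 fun ω ω' _ _ e => ?_).trans few1
        simp only [Prod.mk.injEq] at e
        obtain ⟨b1, ⟨b2, b3⟩, b4, b5⟩ := e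
        exact Prod.ext (Dat.out_erase b4 (dht ω ω' b4 (eW b1) b2) b2) b5
      have a3 : CH D.p t (fun ω => (F ω, (W ω, ((D.s ω c, D.s ω c'), (D.out M ω, D.z ω))))) ≤
          CH D.p t (fun ω => (W ω, ((D.s ω c, F ω), (D.s ω c', (D.out M ω, D.z ω))))) := by
        refine CH_mono_cond hp0 fun ω ω' _ _ e => ?_
        simp only [Prod.mk.injEq] at e ⊢
        obtain ⟨b0, b1, ⟨b2, b3⟩, b4, b5⟩ := e
        exact ⟨b1, ⟨b2, b0⟩, b3, b4, b5⟩
      linarith
    -- (iii) the height given everything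
    have nh_V : ∀ ω ω', F ω = F ω' → D.V ω = D.V ω' → g ω = g ω' →
        |((nh ω - nh ω' : ℤ) : ℝ)| ≤ 1 := by
      intro ω ω' b1 b2 b3
      rw [hg] at b3
      rw [hnhd]
      simp only [Dat.hF]
      have b4 : D.v ω = D.v ω' := funext fun d => D.v_congr (congrFun b2 d)
      rw [b4, b1]
      exact dg_shift' b3
    have g_V : ∀ ω ω', F ω = F ω' → D.V ω = D.V ω' → nh ω = nh ω' →
        |((g ω - g ω' : ℤ) : ℝ)| ≤ 1 := by
      intro ω ω' b1 b2 b3
      rw [hnhd] at b3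
      rw [hg]
      simp only [Dat.hF] at b3
      have b4 : D.v ω = D.v ω' := funext fun d => D.v_congr (congrFun b2 d)
      rw [b4, b1] at b3
      exact dg_shift b3
    have s3 : CH D.p g (fun ω => (D.V ω, D.z ω)) - 2 * θ - Real.log 3 ≤ CH D.p nh
        (fun ω => (t ω, (W ω, ((D.s ω c, F ω), (D.s ω c', (D.out M ω, D.z ω)))))) := by
      have a1 := CH_le_add hp0 g nh (fun ω => (F ω, (D.s ω, (D.V ω, D.z ω))))
      have a2 : CH D.p g (fun ω => (nh ω, (F ω, (D.s ω, (D.V ω, D.z ω))))) ≤ Real.log 3 := by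
        refine CH_one hp _ _ fun ω ω' e => ?_
        simp only [Prod.mk.injEq] at e
        exact g_V ω ω' e.2.1 e.2.2.2.1 e.1
      have a3 : CH D.p nh (fun ω => (F ω, (D.s ω, (D.V ω, D.z ω)))) ≤ CH D.p nh
          (fun ω => (t ω, (W ω, ((D.s ω c, F ω), (D.s ω c', (D.out M ω, D.z ω)))))) := by
        refine CH_mono_cond hp0 fun ω ω' _ _ e => ?_
        simp only [Prod.mk.injEq] at e ⊢
        obtain ⟨b1, b2, b3, b4⟩ := e
        refine ⟨?_, ?_, ⟨congrFun b2 c, b1⟩, congrFun b2 c', Dat.out_det b3 b2, b4⟩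
        · rw [ht]
          exact congrFun b3 c'
        · rw [hW]
          funext i
          exact congrFun b3 _
      linarith
    -- (iv) the height given W only
    have s4 : CH D.p nh (fun ω => (W ω, ((D.s ω c, F ω), (D.s ω c', (D.out M ω, D.z ω))))) ≤
        CH D.p g (fun ω => (D.V ω, D.z ω)) + Real.log 3 + θ := by
      have a0 : CH D.p nh (fun ω => (W ω, ((D.s ω c, F ω), (D.s ω c', (D.out M ω, D.z ω))))) ≤
          CH D.p nh (fun ω => (W ω, ((D.s ω c, F ω), (D.out M ω, D.z ω)))) := by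
        refine CH_mono_cond hp0 fun ω ω' _ _ e => ?_
        simp only [Prod.mk.injEq] at e ⊢
        obtain ⟨b1, ⟨b2, b3⟩, b4, b5, b6⟩ := e
        exact ⟨b1, ⟨b2, b3⟩, b5, b6⟩
      -- the claim for `M` without `c`
      obtain ⟨B, hB⟩ : ∃ B : D.Ω → Fin ((M.erase c).erase c').card → ℤ,
        B = fun ω i => D.V ω (ix ((M.erase c).erase c') i) := ⟨_, rfl⟩
      have eB : ∀ {ω ω'}, B ω = B ω' → ∀ d ∈ (M.erase c).erase c', D.V ω d = D.V ω' d := by
        intro ω ω' e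
        rw [hB] at e
        exact wf_eq e
      have a1 := hF.full
      have a2 : CH D.p (D.on (M.erase c))
          (fun ω => (D.hF h F ω, (F ω, (D.out (M.erase c) ω, D.z ω)))) ≤
          CH D.p (fun ω => (t ω, B ω))
            (fun ω => (nh ω, (F ω, (D.out (M.erase c) ω, D.z ω)))) := by
        rw [hnhd]
        refine CH_mono_left hp0 fun ω ω' _ _ e => ?_
        simp only [Prod.mk.injEq] at e
        refine Dat.on_congr fun d hd => ?_
        by_cases hdc : d = c'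
        · rw [hdc]
          exact et e.1.1
        · exact eB e.1.2 d (Finset.mem_erase.2 ⟨hdc, hd⟩)
      rw [CH_chain hp0] at a2
      have a3 : CH D.p B (fun ω => (nh ω, (F ω, (D.out (M.erase c) ω, D.z ω)))) ≤
          (((M.erase c).erase c').card : ℝ) * (D.X * Real.log 2) := by
        rw [hB]
        exact CH_box hp _ (fun ω i => hH.V_lt ω _) _
      have e1 : ((M.erase c).card : ℝ) * (D.X * Real.log 2) =
          (((M.erase c).erase c').card : ℝ) * (D.X * Real.log 2) + D.X * Real.log 2 := by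
        rw [← hk2R]
        ring
      have a4 : D.X * Real.log 2 - θ ≤
          CH D.p t (fun ω => (B ω, (nh ω, (F ω, (D.out (M.erase c) ω, D.z ω))))) := by
        rw [e1] at a1
        linarith
      have a5 : CH D.p t (fun ω => (B ω, (nh ω, (F ω, (D.out (M.erase c) ω, D.z ω))))) ≤
          CH D.p t (fun ω => (nh ω, (W ω, ((D.s ω c, F ω), (D.out M ω, D.z ω))))) := by
        refine CH_mono_cond hp0 fun ω ω' _ _ e => ?_
        simp only [Prod.mk.injEq] at e ⊢
        obtain ⟨b1, b2, b3, b4, b5⟩ := e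
        have b6 := Dat.out_of_erase b4
        obtain ⟨b7, b8⟩ := D.out_some b4 (Finset.notMem_erase c M)
        have b9 : D.V ω c = D.V ω' c := D.V_det c b7 b8 fun d hd =>
          dlt ω ω' b6 (eB b1) d (hH.s_vars ω c d hd)
        refine ⟨b2, ?_, ⟨b8, b3⟩, b6, b5⟩
        rw [hW]
        funext i
        have hi := ix_mem (M.erase c') i
        show D.V ω (ix (M.erase c') i) = D.V ω' (ix (M.erase c') i)
        by_cases hic : ix (M.erase c') i = c
        · rw [hic]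
          exact b9
        · exact eB b1 _ (Finset.mem_erase.2 ⟨(Finset.mem_erase.1 hi).1,
            Finset.mem_erase.2 ⟨hic, (Finset.mem_erase.1 hi).2⟩⟩)
      have a6 := CH_chain hp0 t nh (fun ω => (W ω, ((D.s ω c, F ω), (D.out M ω, D.z ω))))
      have a7 := CH_chain hp0 nh t (fun ω => (W ω, ((D.s ω c, F ω), (D.out M ω, D.z ω))))
      have a8 : CH D.p (fun ω => (t ω, nh ω))
          (fun ω => (W ω, ((D.s ω c, F ω), (D.out M ω, D.z ω)))) =
          CH D.p (fun ω => (nh ω, t ω))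
            (fun ω => (W ω, ((D.s ω c, F ω), (D.out M ω, D.z ω)))) := by
        refine CH_congr hp0 (fun ω ω' _ _ e => ?_) (fun ω ω' _ _ e => ?_)
          (fun _ _ _ _ e => e) (fun _ _ _ _ e => e) <;>
        · simp only [Prod.mk.injEq] at e ⊢
          exact ⟨e.1.2, e.1.1⟩
      have a9 := htb _ (fun ω => (W ω, ((D.s ω c, F ω), (D.out M ω, D.z ω))))
      -- the height given the position
      have a10 : CH D.p nh (fun ω => (t ω, (W ω, ((D.s ω c, F ω), (D.out M ω, D.z ω))))) ≤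
          CH D.p nh (fun ω => (F ω, (D.V ω, D.z ω))) := by
        refine CH_mono_cond hp0 fun ω ω' _ _ e => ?_
        simp only [Prod.mk.injEq] at e ⊢
        obtain ⟨b1, b2, ⟨b3, b4⟩, b5, b6⟩ := e
        exact ⟨b4, dV ω ω' b5 (eW b2) (et b1), b6⟩
      have a11 := CH_le_add hp0 nh g (fun ω => (F ω, (D.V ω, D.z ω)))
      have a12 : CH D.p nh (fun ω => (g ω, (F ω, (D.V ω, D.z ω)))) ≤ Real.log 3 := by
        refine CH_one hp _ _ fun ω ω' e => ?_
        simp only [Prod.mk.injEq] at e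
        exact nh_V ω ω' e.2.1 e.2.2.1 e.1
      have a13 : CH D.p g (fun ω => (F ω, (D.V ω, D.z ω))) ≤
          CH D.p g (fun ω => (D.V ω, D.z ω)) :=
        CH_mono_cond hp0 fun _ _ _ _ e => (Prod.ext_iff.1 e).2
      linarith
    -- together
    have b1 := CH_chain hp0 t nh
      (fun ω => (W ω, ((D.s ω c, F ω), (D.s ω c', (D.out M ω, D.z ω)))))
    have b2 := CH_chain hp0 nh t
      (fun ω => (W ω, ((D.s ω c, F ω), (D.s ω c', (D.out M ω, D.z ω)))))
    have b3 : CH D.p (fun ω => (t ω, nh ω))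
        (fun ω => (W ω, ((D.s ω c, F ω), (D.s ω c', (D.out M ω, D.z ω))))) =
        CH D.p (fun ω => (nh ω, t ω))
          (fun ω => (W ω, ((D.s ω c, F ω), (D.s ω c', (D.out M ω, D.z ω))))) := by
      refine CH_congr hp0 (fun ω ω' _ _ e => ?_) (fun ω ω' _ _ e => ?_)
        (fun _ _ _ _ e => e) (fun _ _ _ _ e => e) <;>
      · simp only [Prod.mk.injEq] at e ⊢
        exact ⟨e.1.2, e.1.1⟩
    linarith
  · -- few
    simp only [hSa]
    have h1 : CH D.p (fun ω => res (M.erase c') (F' ω))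
        (fun ω => (D.ha M c' ω, (D.s ω c', (D.out M ω, D.z ω)))) ≤
        CH D.p F' (fun ω => (D.ha M c' ω, (D.s ω c', (D.out M ω, D.z ω)))) :=
      CH_mono_left hp0 fun ω ω' _ _ e => by
        simp only [Prod.mk.injEq] at e
        rw [e.1]
    have h2 := CH_le_add hp0 F' (D.ht c') (fun ω => (D.ha M c' ω, (D.s ω c', (D.out M ω, D.z ω))))
    have h3 : CH D.p F' (fun ω => (D.ht c' ω, (D.ha M c' ω, (D.s ω c', (D.out M ω, D.z ω))))) ≤
        θ := by
      refine (CH_mono_cond hp0 fun ω ω' _ _ e => ?_).trans hF'.few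
      simp only [Prod.mk.injEq] at e
      obtain ⟨b1, b2, b3, b4, b5⟩ := e
      exact Prod.ext (Dat.out_erase b4 b1 b3) b5
    have h4 := CH_close hp (D.ht c') (D.ha M c') (fun ω => (D.s ω c', (D.out M ω, D.z ω)))
      (E := (2 : ℝ) ^ ((tS m K : ℝ) * (b + 1)) + 1) (fun ω => by
        have := Dat.ha_near hb hH hs M ω c'
        push_cast at this ⊢
        rwa [abs_sub_comm])
    have h5 := log_close hTb
    linarith
  · -- nuQR
    have hg' : (fun ω => dg h (D.nr ω)) = g := hg.symm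
    rw [hg']
    have h1 : CH D.p g (fun ω => ((fun i => D.V ω (ix (M.erase c') i)),
        (D.V ω c', (D.out M ω, D.z ω)))) ≤ CH D.p g (fun ω => (D.V ω, D.z ω)) := by
      refine CH_mono_cond hp0 fun ω ω' _ _ e => ?_
      simp only [Prod.mk.injEq] at e
      obtain ⟨b1, b2, b3, b4⟩ := e
      exact Prod.ext (dV ω ω' b3 (wf_eq b1) b2) b4
    have h2 : CH D.p g (fun ω => (F ω, (D.s ω, (D.V ω, D.z ω)))) ≤
        CH D.p g (fun ω => ((D.s ω c, F ω), (D.s ω c', ((fun i => D.V ω (ix (M.erase c') i)),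
          (D.V ω c', (D.out M ω, D.z ω)))))) := by
      refine CH_mono_cond hp0 fun ω ω' _ _ e => ?_
      simp only [Prod.mk.injEq] at e ⊢
      obtain ⟨b1, b2, b3, b4⟩ := e
      refine ⟨⟨congrFun b2 c, b1⟩, congrFun b2 c', ?_, congrFun b3 c', Dat.out_det b3 b2, b4⟩
      funext i
      exact congrFun b3 _
    linarith
  · -- nf
    intro Ω' _ q f hq r r' hr hr' hκ
    refine (CH_mono_cond hq.isLaw.nonneg fun ω ω' _ _ e => ?_).trans
      (hN Ω' q f hq r r' hr hr' hκ)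
    simp only [Prod.mk.injEq] at e ⊢
    obtain ⟨b1, b2, b3, b4, b5⟩ := e
    exact ⟨b1, dV _ _ b4 (wf_eq b2) b3, b5⟩

end

end Pool.TIE
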