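import Pool.Agent.H77.TIE.StepC

/-!
# One step, from the core

`step_at`: from the core (with given constants) the step with constants. `stepAt_mono`: all
constants may be made worse. The claim for a set `M` is the core for the coordinates of `M`
without `c'` (context: the sheets outside `M`; sheet of `c'` over the rest, the shapes of the
other coordinates outside `M` eliminated).
-/

set_option autoImplicit false

namespace Pool.TIE

open Finset MvPolynomial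
open Pool.Agent.H49.Ent Pool.Agent.H32.Dense Pool.STK Pool.BFL

variable {m : ℕ}

/-- The core with given constants. -/
def CoreAt (k K : ℕ) (c₀ ε : ℝ) (K' h₁ : ℕ) (κ' κ π c₁ ι : ℝ) : Prop :=
  ∀ (Ω ζ 𝒬 ℛ : Type) [Fintype Ω] (p : Ω → ℝ) (Z : Ω → ζ) (Q : Ω → 𝒬) (R : Ω → ℛ)
    (W : Ω → Fin k → ℤ) (t : Ω → ℤ) (nu : Ω → ℝ) (S F₂ : Ω → Pl k) (P : Ω → Polynomial ℝ)
    (X h : ℕ), h₁ ≤ h →
    CoreH p Z Q R W t nu S F₂ P X h K (ι * h) (ι * h) c₀ κ π →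
    ∃ (Ω' : Type) (_ : Fintype Ω') (q : Ω' → ℝ) (f : Ω' → Ω) (h' : ℕ) (G : Ω' → Pl (k + 1)),
      SubL p c₁ q f ∧ κ' * h ≤ h' ∧ h' ≤ h ∧ (∀ ω, (G ω).totalDegree ≤ K') ∧
      (∀ ω α, |coeff α (G ω)| ≤ (2 : ℝ) ^ (ε * h')) ∧
      CH q G (fun ω => Z (f ω)) ≤ ε * h' ∧
      (k + 1) * (X * Real.log 2) - ε * h' ≤ CH q (fun ω => (W (f ω), t (f ω)))
        (fun ω => (dg h' (nu (f ω) - eval (Fin.cons ((t (f ω) : ℝ) / 2 ^ X)
          (fun i => (W (f ω) i : ℝ) / 2 ^ X) : Fin (k + 1) → ℝ) (G ω)), (G ω, Z (f ω))))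

/-- The step with given constants, for sets of `k + 1` coordinates. -/
def StepAt (m k K : ℕ) (c₀ ε : ℝ) (K' h₁ : ℕ) (κ' κ π c₁ ι : ℝ) : Prop :=
  ∀ (D : Dat m) (M : Finset (Fin m)) (c c' : Fin m) (h : ℕ) (F F' : D.Ω → Pl m),
    M.card = k + 1 → c ∈ M → c' ∈ M → c < c' → h₁ ≤ h → h ≤ D.h₀ → Hyp D K (ι * h) (ι * h) →
    NFd D h c₀ κ π → FulM D M c c' (ι * h) →
    Claim D (M.erase c) h K (ι * h) (ι * h) F → Claim D (M.erase c') h K (ι * h) (ι * h) F' →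
    ∃ (Ω' : Type) (_ : Fintype Ω') (q : Ω' → ℝ) (f : Ω' → D.Ω) (h' : ℕ) (G : Ω' → Pl m),
      SubL D.p c₁ q f ∧ κ' * h ≤ h' ∧ h' ≤ h ∧
      Claim (D.pull q f) M h' K' (ε * h') (ε * h') G

/-! ### Monotonicity -/

theorem Hyp.monoS {D : Dat m} {K K' : ℕ} {b b' θ θ' : ℝ} (hK : K ≤ K') (hb : b ≤ b')
    (hθ : θ ≤ θ') (h : Hyp D K b θ) : Hyp D K' b' θ' where
  isLaw := h.isLaw
  V_lt := h.V_lt
  h_le := h.h_le
  s_deg := fun ω c => (h.s_deg ω c).trans hK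
  s_cf := fun ω c α => (h.s_cf ω c α).trans (Real.rpow_le_rpow_of_exponent_le one_le_two hb)
  s_vars := h.s_vars
  nr_le := fun ω => (h.nr_le ω).trans (Real.rpow_le_rpow_of_exponent_le one_le_two hb)
  nu_s := h.nu_s.trans (by linarith)

theorem Claim.monoS {D : Dat m} {M : Finset (Fin m)} {h K K' : ℕ} {b b' θ θ' : ℝ}
    {F : D.Ω → Pl m} (hK : K ≤ K') (hb : b ≤ b') (hθ : θ ≤ θ') (H : Claim D M h K b θ F) :
    Claim D M h K' b' θ' F where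
  vars := H.vars
  deg := fun ω => (H.deg ω).trans hK
  cf := fun ω α => (H.cf ω α).trans (Real.rpow_le_rpow_of_exponent_le one_le_two hb)
  few := H.few.trans hθ
  full := by linarith [H.full]

theorem FulM.monoS {D : Dat m} {M : Finset (Fin m)} {c c' : Fin m} {θ θ' : ℝ} (hθ : θ ≤ θ')
    (H : FulM D M c c' θ) : FulM D M c c' θ' := by
  unfold FulM at H ⊢
  linarith

theorem SubL.monoS {Ω : Type} {p : Ω → ℝ} {c c₁ : ℝ} {Ω' : Type} [Fintype Ω'] {q : Ω' → ℝ}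
    {f : Ω' → Ω} (hc : c₁ ≤ c) (H : SubL p c q f) : SubL p c₁ q f where
  isLaw := H.isLaw
  dens := fun ω => (mul_le_mul_of_nonneg_right hc
    (Pool.Agent.H49.Ent.law_nonneg H.isLaw.nonneg f ω)).trans (H.dens ω)

theorem NFd.monoS {D : Dat m} {h : ℕ} {c κ κ₁ π π₁ : ℝ} (hκ : κ₁ ≤ κ) (hπ : π₁ ≤ π)
    (H : NFd D h c κ₁ π₁) : NFd D h c κ π := by
  intro Ω' _ q f hq r r' h1 h2 h3
  exact H Ω' q f (hq.monoS hπ) r r' h1 h2
    ((mul_le_mul_of_nonneg_right hκ (Nat.cast_nonneg _)).trans h3)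

theorem CoreH.monoS {Ω ζ 𝒬 ℛ : Type} [Fintype Ω] {k : ℕ} {p : Ω → ℝ} {Z : Ω → ζ} {Q : Ω → 𝒬}
    {R : Ω → ℛ} {W : Ω → Fin k → ℤ} {t : Ω → ℤ} {nu : Ω → ℝ} {S F₂ : Ω → Pl k}
    {P : Ω → Polynomial ℝ} {X h K : ℕ} {b b' θ θ' c₀ κ π : ℝ} (hb : b ≤ b') (hθ : θ ≤ θ')
    (H : CoreH p Z Q R W t nu S F₂ P X h K b θ c₀ κ π) :
    CoreH p Z Q R W t nu S F₂ P X h K b' θ' c₀ κ π := by
  have h2 : (2 : ℝ) ^ b ≤ (2 : ℝ) ^ b' := Real.rpow_le_rpow_of_exponent_le one_le_two hb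
  exact
    { isLaw := H.isLaw
      hX := H.hX
      W_lt := H.W_lt
      t_lt := H.t_lt
      S_det := H.S_det
      P_det := H.P_det
      S_deg := H.S_deg
      F_deg := H.F_deg
      P_deg := H.P_deg
      S_cf := fun ω α => (H.S_cf ω α).trans h2
      F_cf := fun ω α => (H.F_cf ω α).trans h2
      P_cf := fun ω i => (H.P_cf ω i).trans h2
      nu_le := fun ω => (H.nu_le ω).trans h2
      full := by linarith [H.full]
      fullW := by linarith [H.fullW]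
      fullt := by linarith [H.fullt]
      few := H.few.trans hθ
      nuQR := by linarith [H.nuQR]
      nf := H.nf }

theorem stepAt_mono {k K K' K'' h₁ h₂ : ℕ} {c₀ ε κ' κ'' κ κ₁ π π₁ c₁ c₂ ι ι₁ : ℝ} (hK : K' ≤ K'')
    (hh : h₁ ≤ h₂) (h' : κ'' ≤ κ') (hκ : κ₁ ≤ κ) (hπ : π₁ ≤ π) (hc : c₂ ≤ c₁) (hι : ι₁ ≤ ι)
    (H : StepAt m k K c₀ ε K' h₁ κ' κ π c₁ ι) : StepAt m k K c₀ ε K'' h₂ κ'' κ₁ π₁ c₂ ι₁ := by
  intro D M c c' h F F' hk hcM hcM' hcc h1 h2 hH hN hM hF hF'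
  have hi : ι₁ * (h : ℝ) ≤ ι * h := mul_le_mul_of_nonneg_right hι (Nat.cast_nonneg _)
  obtain ⟨Ω', i', q, f, h3, G, a1, a2, a3, a4⟩ := H D M c c' h F F' hk hcM hcM' hcc
    (hh.trans h1) h2 (hH.monoS le_rfl hi hi) (hN.monoS hκ hπ) (hM.monoS hi)
    (hF.monoS le_rfl hi hi) (hF'.monoS le_rfl hi hi)
  exact ⟨Ω', i', q, f, h3, G, a1.monoS hc,
    (mul_le_mul_of_nonneg_right h' (Nat.cast_nonneg _)).trans a2, a3,
    a4.monoS hK le_rfl le_rfl⟩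

/-! ### The step -/

/-- The coordinates of `M`, `c'` first. -/
noncomputable def cix (M : Finset (Fin m)) (c' : Fin m) : Fin ((M.erase c').card + 1) → Fin m :=
  Fin.cons c' (ix (M.erase c'))

theorem cix_inj (M : Finset (Fin m)) (c' : Fin m) : Function.Injective (cix M c') := by
  refine Fin.cons_injective_iff.2 ⟨?_, ix_inj _⟩
  rintro ⟨i, hi⟩
  have := ix_mem (M.erase c') i
  rw [hi] at this
  exact Finset.notMem_erase c' M this

theorem cix_mem {M : Finset (Fin m)} {c' : Fin m} (hc' : c' ∈ M) (i : Fin ((M.erase c').card + 1)) :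
    cix M c' i ∈ M := by
  refine Fin.cases ?_ (fun j => ?_) i
  · exact hc'
  · exact Finset.mem_of_mem_erase (ix_mem (M.erase c') j)

theorem comp_cix (M : Finset (Fin m)) (c' : Fin m) (x : Fin m → ℝ) :
    x ∘ cix M c' = Fin.cons (x c') (fun i => x (ix (M.erase c') i)) := by
  funext i
  refine Fin.cases ?_ (fun j => ?_) i
  · rfl
  · rfl

/-- **The step from the core.** -/
theorem step_at {k K K' h₁ : ℕ} {c₀ ε κ' κ π c₁ ι₁ : ℝ} (hι₁ : 0 < ι₁)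
    (H : CoreAt k ((max K 1) ^ (m + 1)) c₀ ε K' h₁ κ' κ π c₁ ι₁) :
    ∃ (h₂ : ℕ) (ι : ℝ), 0 < ι ∧ StepAt m k K c₀ ε K' h₂ κ' κ π c₁ ι := by
  set K₁ := max K 1 with hK₁
  set T : ℝ := (tS m K₁ : ℝ) with hT
  have hT0 : 0 ≤ T := Nat.cast_nonneg _
  obtain ⟨N, hN⟩ := exists_nat_ge ((4 * T + 16) / ι₁ + T + 1)
  refine ⟨max h₁ N, min (ι₁ / (20 + 4 * T)) (1 / (T + 1)), by positivity, ?_⟩
  intro D M c c' h F F' hk hcM hcM' hcc h1 h2 hH hNF hM hF hF'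
  set ι : ℝ := min (ι₁ / (20 + 4 * T)) (1 / (T + 1)) with hι
  have hι0 : 0 < ι := by rw [hι]; positivity
  have hh1 : h₁ ≤ h := (le_max_left _ _).trans h1
  have hhN : (N : ℝ) ≤ h := by exact_mod_cast (le_max_right _ _).trans h1
  have hhR : (4 * T + 16) / ι₁ + T + 1 ≤ h := hN.trans hhN
  have hq0 : 0 ≤ (4 * T + 16) / ι₁ := by positivity
  have e1 : 4 * T + 16 ≤ ι₁ * h := by
    have : (4 * T + 16) / ι₁ ≤ h := by linarith
    rw [div_le_iff₀ hι₁] at this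
    linarith
  have e2 : ι * (20 + 4 * T) ≤ ι₁ := by
    have : ι ≤ ι₁ / (20 + 4 * T) := min_le_left _ _
    rwa [le_div_iff₀ (by linarith)] at this
  have e3 : ι * (T + 1) ≤ 1 := by
    have : ι ≤ 1 / (T + 1) := min_le_right _ _
    rwa [le_div_iff₀ (by linarith)] at this
  have hh0 : (0 : ℝ) ≤ h := Nat.cast_nonneg _
  have hb : 0 ≤ ι * h := mul_nonneg hι0.le hh0
  have e4 : 20 * (ι * h) + 4 * (T * (ι * h)) ≤ ι₁ * h := by
    have := mul_le_mul_of_nonneg_right e2 hh0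
    linarith
  have e5 : T * (ι * h) + ι * h ≤ h := by
    have := mul_le_mul_of_nonneg_right e3 hh0
    linarith
  have hX : 2 * (D.h₀ : ℝ) ≤ D.X := by exact_mod_cast hH.h_le
  have hh2 : (h : ℝ) ≤ D.h₀ := by exact_mod_cast h2
  have hs : T * (ι * h + 1) ≤ D.X := by
    have : T ≤ h := by linarith
    linarith
  have f1 : T * (ι * h + 1) ≤ ι₁ * h := by linarith
  have f2 : 5 * (ι * h) + T * (ι * h + 1) + 4 ≤ ι₁ * h := by linarith
  have hKK : K ≤ K₁ := le_max_left _ _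
  have hcore := coreH (le_max_right _ _) hb hcM hcM' hcc h2 hs (hH.monoS hKK le_rfl le_rfl) hNF hM
    (hF.monoS hKK le_rfl le_rfl) (hF'.monoS hKK le_rfl le_rfl)
  have hk1 : (M.erase c').card + 1 = M.card := Finset.card_erase_add_one hcM'
  have hkk : k = (M.erase c').card := by omega
  subst hkk
  obtain ⟨Ω', i', q, f, h', G, a1, a2, a3, a4, a5, a6, a7⟩ :=
    H _ _ _ _ _ _ _ _ _ _ _ _ _ _ _ h hh1 (hcore.monoS f1 f2)
  have hq0 := a1.isLaw.nonneg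
  have hpos : (0 : ℝ) ≤ (2 : ℝ) ^ (ε * h') := (Real.rpow_pos_of_pos two_pos _).le
  have hev : ∀ ω, eval (D.v (f ω)) (rename (cix M c') (G ω)) =
      eval (Fin.cons ((D.V (f ω) c' : ℝ) / 2 ^ D.X)
        (fun i => (D.V (f ω) (ix (M.erase c') i) : ℝ) / 2 ^ D.X) :
          Fin ((M.erase c').card + 1) → ℝ) (G ω) := by
    intro ω
    rw [eval_rename, comp_cix]
    rfl
  refine ⟨Ω', i', q, f, h', fun ω => rename (cix M c') (G ω), a1, a2, a3, ?_, ?_, ?_, ?_, ?_⟩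
  · intro ω i hi
    classical
    have := vars_rename (cix M c') (G ω) hi
    obtain ⟨j, _, rfl⟩ := Finset.mem_image.1 this
    exact cix_mem hcM' j
  · intro ω
    exact (totalDegree_rename_le _ _).trans (a4 ω)
  · intro ω α
    exact coeff_rename_le (cix_inj M c') hpos (a5 ω) α
  · refine le_trans (CH_mono_left hq0 (X' := G) fun ω ω' _ _ e => ?_) a6
    have e1 : G ω = G ω' := (Prod.ext_iff.1 e).1
    show rename (cix M c') (G ω) = rename (cix M c') (G ω')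
    rw [e1]
  · have hc1 : (M.card : ℝ) = ((M.erase c').card : ℝ) + 1 := by exact_mod_cast hk1.symm
    show (M.card : ℝ) * (D.X * Real.log 2) - ε * h' ≤ _
    rw [hc1]
    refine a7.trans ?_
    refine le_trans (CH_mono_left hq0 (X' := (D.pull q f).on M) fun ω ω' _ _ e => ?_)
      (CH_mono_cond hq0 fun ω ω' _ _ e => ?_)
    · have e1 : D.on M (f ω) = D.on M (f ω') := (Prod.ext_iff.1 e).1
      have e2 : ∀ d ∈ M, D.V (f ω) d = D.V (f ω') d := fun d hd => D.on_mem e1 hd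
      refine Prod.ext ?_ (e2 c' hcM')
      funext i
      exact e2 _ (Finset.mem_of_mem_erase (ix_mem (M.erase c') i))
    · have e1 := Prod.ext_iff.1 e
      have e2 := Prod.ext_iff.1 e1.2
      have g1 : G ω = G ω' := e2.1
      refine Prod.ext ?_ (Prod.ext ?_ e2.2)
      · show dg h' (D.nr (f ω) - eval (D.v (f ω)) (rename (cix M c') (G ω))) =
          dg h' (D.nr (f ω') - eval (D.v (f ω')) (rename (cix M c') (G ω')))
        rw [hev, hev]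
        exact e1.1
      · show rename (cix M c') (G ω) = rename (cix M c') (G ω')
        rw [g1]

/-- The core in the order of constants of the induction (the degree before the error). -/
def CoreOrd : Prop :=
  ∀ (k K : ℕ) (c₀ : ℝ), 0 < c₀ → ∃ K' : ℕ, ∀ ε : ℝ, 0 < ε → ∃ (h₁ : ℕ) (κ' κ π c₁ ι : ℝ),
    0 < κ' ∧ κ' ≤ 1 ∧ 0 < κ ∧ 0 < π ∧ 0 < c₁ ∧ 0 < ι ∧ CoreAt k K c₀ ε K' h₁ κ' κ π c₁ ι

theorem step_upto (H : CoreOrd) (m K : ℕ) (c₀ : ℝ) (hc₀ : 0 < c₀) (n : ℕ) :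
    ∃ K' : ℕ, ∀ ε : ℝ, 0 < ε → ∃ (h₁ : ℕ) (κ' κ π c₁ ι : ℝ),
      0 < κ' ∧ κ' ≤ 1 ∧ 0 < κ ∧ 0 < π ∧ 0 < c₁ ∧ 0 < ι ∧
      ∀ k < n, StepAt m k K c₀ ε K' h₁ κ' κ π c₁ ι := by
  induction n with
  | zero =>
    exact ⟨0, fun ε _ => ⟨0, 1, 1, 1, 1, 1, one_pos, le_rfl, one_pos, one_pos, one_pos, one_pos,
      fun k hk => absurd hk (Nat.not_lt_zero k)⟩⟩
  | succ n ih =>
    obtain ⟨K₁, h1⟩ := ih
    obtain ⟨K₂, h2⟩ := H n ((max K 1) ^ (m + 1)) c₀ hc₀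
    refine ⟨max K₁ K₂, fun ε hε => ?_⟩
    obtain ⟨h₁, κ', κ, π, c₁, ι, b1, b2, b3, b4, b5, b6, b7⟩ := h1 ε hε
    obtain ⟨h₁', κ₂', κ₂, π₂, c₂, ι₂, d1, d2, d3, d4, d5, d6, d7⟩ := h2 ε hε
    obtain ⟨h₂, ι₃, g1, g2⟩ := step_at d6 d7
    refine ⟨max h₁ h₂, min κ' κ₂', min κ κ₂, min π π₂, min c₁ c₂, min ι ι₃, lt_min b1 d1,
      (min_le_left _ _).trans b2, lt_min b3 d3, lt_min b4 d4, lt_min b5 d5, lt_min b6 g1, ?_⟩
    intro k hk
    rcases Nat.lt_succ_iff_lt_or_eq.1 hk with hk1 | rfl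
    · exact stepAt_mono (le_max_left _ _) (le_max_left _ _) (min_le_left _ _) (min_le_left _ _)
        (min_le_left _ _) (min_le_left _ _) (min_le_left _ _) (b7 k hk1)
    · exact stepAt_mono (le_max_right _ _) (le_max_right _ _) (min_le_right _ _)
        (min_le_right _ _) (min_le_right _ _) (min_le_right _ _) (min_le_right _ _) g2

/-- **One step**, with the degree before the error. -/
theorem step_ord (H : CoreOrd) (m K : ℕ) (c₀ : ℝ) (hc₀ : 0 < c₀) :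
    ∃ K' : ℕ, ∀ ε : ℝ, 0 < ε → ∃ (h₁ : ℕ) (κ' κ π c₁ ι : ℝ),
      0 < κ' ∧ κ' ≤ 1 ∧ 0 < κ ∧ 0 < π ∧ 0 < c₁ ∧ 0 < ι ∧
      ∀ (D : Dat m) (M : Finset (Fin m)) (c c' : Fin m) (h : ℕ) (F F' : D.Ω → Pl m), c ∈ M →
      c' ∈ M → c < c' → h₁ ≤ h → h ≤ D.h₀ → Hyp D K (ι * h) (ι * h) →
      NFd D h c₀ κ π → FulM D M c c' (ι * h) →
      Claim D (M.erase c) h K (ι * h) (ι * h) F → Claim D (M.erase c') h K (ι * h) (ι * h) F' →
      ∃ (Ω' : Type) (_ : Fintype Ω') (q : Ω' → ℝ) (f : Ω' → D.Ω) (h' : ℕ) (G : Ω' → Pl m),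
        SubL D.p c₁ q f ∧ κ' * h ≤ h' ∧ h' ≤ h ∧
        Claim (D.pull q f) M h' K' (ε * h') (ε * h') G := by
  obtain ⟨K', h1⟩ := step_upto H m K c₀ hc₀ m
  refine ⟨K', fun ε hε => ?_⟩
  obtain ⟨h₁, κ', κ, π, c₁, ι, b1, b2, b3, b4, b5, b6, b7⟩ := h1 ε hε
  refine ⟨h₁, κ', κ, π, c₁, ι, b1, b2, b3, b4, b5, b6, ?_⟩
  intro D M c c' h F F' hc hc' hcc h2 h3 hH hN hM hF hF'
  have hcard : M.card ≤ m := by
    simpa using Finset.card_le_univ M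
  have hpos : 0 < M.card := Finset.card_pos.2 ⟨c, hc⟩
  exact b7 (M.card - 1) (by omega) D M c c' h F F' (by omega) hc hc' hcc h2 h3 hH hN hM hF hF'

end Pool.TIE
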