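import Pool.Agent.H77.TIE.StepP

/-!
# The hypotheses of the core

`Dat.sb M ω c`: the shape of the sheet of `c` as a polynomial in the coordinates of `M`.
-/

set_option autoImplicit false

namespace Pool.TIE

open Finset MvPolynomial
open Pool.Agent.H49.Ent Pool.Agent.H32.Dense Pool.STK Pool.BFL
open Pool.KAL (coefSum coefSum_nonneg coefSum_add_le coefSum_C coefSum_X coefSum_aeval_le
  abs_coeff_le expBox coefSum_eq_box coefSum_zero)

variable {m : ℕ}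

/-! ### Constants -/

/-- The number of exponents. -/
noncomputable def nA (m K : ℕ) : ℕ := (expBox (Fin m) K).card + 3

/-- The constant of the step. -/
noncomputable def tS (m K : ℕ) : ℕ :=
  (nA m K + 2 * K) * (m + 1) + nA m K * (K + 1) ^ (m + 1) + nA m K

theorem two_pow_ge (n : ℕ) : n + 2 ≤ 2 ^ (n + 2) := by
  have := Nat.lt_two_pow_self (n := n + 2)
  omega

/-- The bound of the sums of the coefficients. -/
noncomputable def nN (m K : ℕ) (b : ℝ) : ℝ := (expBox (Fin m) K).card * (2 : ℝ) ^ b + 2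

theorem two_nN_le (m K : ℕ) {b : ℝ} (hb : 0 ≤ b) : 2 * nN m K b ≤ (2 : ℝ) ^ (b + nA m K) := by
  have h1 : (1 : ℝ) ≤ (2 : ℝ) ^ b := Real.one_le_rpow one_le_two hb
  have h2 : (((expBox (Fin m) K).card + 2 : ℕ) : ℝ) ≤ 2 ^ ((expBox (Fin m) K).card + 2) := by
    exact_mod_cast two_pow_ge _
  rw [Real.rpow_add two_pos]
  have h3 : (2 : ℝ) ^ ((nA m K : ℕ) : ℝ) = 2 * 2 ^ ((expBox (Fin m) K).card + 2) := by
    rw [Real.rpow_natCast]
    unfold nA
    rw [pow_succ' 2 ((expBox (Fin m) K).card + 2)]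
  rw [h3]
  unfold nN
  push_cast at h2
  have h4 : (0 : ℝ) ≤ (expBox (Fin m) K).card := Nat.cast_nonneg _
  have h5 : 2 ≤ 2 * (2 : ℝ) ^ b := by linarith
  have h6 := mul_le_mul_of_nonneg_left h2 (by positivity : (0 : ℝ) ≤ 2 ^ b)
  nlinarith

theorem nN_ge (m K : ℕ) (b : ℝ) : 2 ≤ nN m K b := by
  unfold nN
  have h4 : (0 : ℝ) ≤ (expBox (Fin m) K).card := Nat.cast_nonneg _
  have : (0 : ℝ) ≤ (expBox (Fin m) K).card * (2 : ℝ) ^ b := by positivity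
  linarith

/-- `K 2 ^ K N + 1`. -/
noncomputable def nL (m K : ℕ) (b : ℝ) : ℝ := K * 2 ^ K * nN m K b + 1

theorem nL_ge (m K : ℕ) (b : ℝ) : 1 ≤ nL m K b := by
  unfold nL
  have := nN_ge m K b
  have : (0 : ℝ) ≤ K * 2 ^ K * nN m K b := by positivity
  linarith

theorem nL_le (m K : ℕ) {b : ℝ} (hb : 0 ≤ b) :
    nL m K b ≤ (2 : ℝ) ^ (b + (nA m K + 2 * K : ℕ)) := by
  have h1 := two_nN_le m K hb
  have h2 : (K : ℝ) ≤ 2 ^ K := by exact_mod_cast (Nat.lt_two_pow_self (n := K)).le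
  have h3 := nN_ge m K b
  have h4 : (K : ℝ) * 2 ^ K ≤ 2 ^ K * 2 ^ K := mul_le_mul_of_nonneg_right h2 (by positivity)
  have h5 : (1 : ℝ) ≤ 2 ^ K * 2 ^ K := by
    rw [← pow_add]
    exact one_le_pow₀ one_le_two
  have e1 : b + ((nA m K + 2 * K : ℕ) : ℝ) = (b + nA m K) + ((K + K : ℕ) : ℝ) := by
    push_cast
    ring
  rw [e1, Real.rpow_add two_pos, Real.rpow_natCast, pow_add]
  unfold nL
  have h6 : (K : ℝ) * 2 ^ K * nN m K b ≤ 2 ^ K * 2 ^ K * nN m K b :=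
    mul_le_mul_of_nonneg_right h4 (by linarith)
  have h7 : (1 : ℝ) ≤ 2 ^ K * 2 ^ K * nN m K b := by nlinarith
  have h8 : (2 : ℝ) ^ K * 2 ^ K * (2 * nN m K b) ≤ 2 ^ K * 2 ^ K * 2 ^ (b + nA m K) :=
    mul_le_mul_of_nonneg_left h1 (by positivity)
  linarith

theorem rpow_pow_le {x y : ℝ} {n : ℕ} (hx : 0 ≤ x) (h : x ≤ (2 : ℝ) ^ y) :
    x ^ n ≤ (2 : ℝ) ^ (y * n) := by
  refine (pow_le_pow_left₀ hx h n).trans (le_of_eq ?_)
  rw [Real.rpow_mul two_pos.le, Real.rpow_natCast]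

theorem nL_pow_le (m K : ℕ) {b : ℝ} (hb : 0 ≤ b) {n : ℕ} (hn : n ≤ m + 1) :
    nL m K b ^ n ≤ (2 : ℝ) ^ ((tS m K : ℝ) * (b + 1)) := by
  have h0 : 0 ≤ nL m K b := by linarith [nL_ge m K b]
  have h1 : nL m K b ^ n ≤ nL m K b ^ (m + 1) := pow_le_pow_right₀ (nL_ge m K b) hn
  refine (h1.trans (rpow_pow_le (n := m + 1) h0 (nL_le m K hb))).trans ?_
  refine Real.rpow_le_rpow_of_exponent_le one_le_two ?_
  have hA : (1 : ℝ) ≤ (nA m K + 2 * K : ℕ) := by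
    have : 1 ≤ nA m K + 2 * K := by unfold nA; omega
    exact_mod_cast this
  have h2 : ((nA m K + 2 * K : ℕ) : ℝ) * ((m + 1 : ℕ) : ℝ) ≤ tS m K := by
    have : (nA m K + 2 * K) * (m + 1) ≤ tS m K := by unfold tS; omega
    exact_mod_cast this
  have h3 : (b + (nA m K + 2 * K : ℕ)) * ((m + 1 : ℕ) : ℝ) ≤
      ((nA m K + 2 * K : ℕ) : ℝ) * ((m + 1 : ℕ) : ℝ) * (b + 1) := by
    have h4 : b + (nA m K + 2 * K : ℕ) ≤ ((nA m K + 2 * K : ℕ) : ℝ) * (b + 1) := by nlinarith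
    have h5 : (0 : ℝ) ≤ ((m + 1 : ℕ) : ℝ) := Nat.cast_nonneg _
    nlinarith [mul_le_mul_of_nonneg_right h4 h5]
  exact h3.trans (mul_le_mul_of_nonneg_right h2 (by linarith))

theorem nN_pow_le (m K : ℕ) {b : ℝ} (hb : 0 ≤ b) {n : ℕ} (hn : n ≤ (K + 1) ^ (m + 1)) :
    (2 * nN m K b) ^ n ≤ (2 : ℝ) ^ ((tS m K : ℝ) * (b + 1)) := by
  have h2N : 1 ≤ 2 * nN m K b := by linarith [nN_ge m K b]
  have h1 : (2 * nN m K b) ^ n ≤ (2 * nN m K b) ^ ((K + 1) ^ (m + 1)) :=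
    pow_le_pow_right₀ h2N hn
  refine (h1.trans (rpow_pow_le (by linarith) (two_nN_le m K hb))).trans ?_
  refine Real.rpow_le_rpow_of_exponent_le one_le_two ?_
  have hA : (1 : ℝ) ≤ (nA m K : ℕ) := by
    have : 1 ≤ nA m K := by unfold nA; omega
    exact_mod_cast this
  have h2 : ((nA m K : ℕ) : ℝ) * (((K + 1) ^ (m + 1) : ℕ) : ℝ) ≤ tS m K := by
    have : nA m K * (K + 1) ^ (m + 1) ≤ tS m K := by
      unfold tS
      have := Nat.zero_le ((nA m K + 2 * K) * (m + 1))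
      omega
    exact_mod_cast this
  have h4 : b + (nA m K : ℕ) ≤ ((nA m K : ℕ) : ℝ) * (b + 1) := by nlinarith
  have h5 : (0 : ℝ) ≤ (((K + 1) ^ (m + 1) : ℕ) : ℝ) := Nat.cast_nonneg _
  have h3 := mul_le_mul_of_nonneg_right h4 h5
  have h6 := mul_le_mul_of_nonneg_right h2 (by linarith : (0 : ℝ) ≤ b + 1)
  linarith

/-! ### Elimination in the data -/

namespace Dat

variable (D : Dat m)

/-- The shape of the sheet of `c` over the coordinates of `M`. -/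
noncomputable def sb (M : Finset (Fin m)) (ω : D.Ω) (c : Fin m) : Pl m :=
  bind₁ (el D.X (D.out M ω) m) (D.s ω c)

variable {D}

theorem out_of_mem {M : Finset (Fin m)} {d : Fin m} (h : d ∈ M) (ω : D.Ω) :
    D.out M ω d = none := by
  unfold out
  rw [if_pos h]

theorem out_of_not {M : Finset (Fin m)} {d : Fin m} (h : d ∉ M) (ω : D.Ω) :
    D.out M ω d = some (D.ht d ω, D.s ω d) := by
  unfold out
  rw [if_neg h]

theorem out_none {M : Finset (Fin m)} {d : Fin m} {ω : D.Ω} (h : D.out M ω d = none) : d ∈ M := by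
  by_contra hc
  rw [out_of_not hc] at h
  cases h

theorem out_some' {M : Finset (Fin m)} {d : Fin m} {ω : D.Ω} {q : ℤ × Pl m}
    (h : D.out M ω d = some q) : d ∉ M ∧ q = (D.ht d ω, D.s ω d) := by
  by_cases hc : d ∈ M
  · rw [out_of_mem hc] at h
    cases h
  · rw [out_of_not hc] at h
    exact ⟨hc, (Option.some.inj h).symm⟩

theorem v_leS {K : ℕ} {b θ : ℝ} (hH : Hyp D K b θ) (ω : D.Ω) (i : Fin m) : |D.v ω i| ≤ 1 := by
  obtain ⟨h1, h2⟩ := hH.V_lt ω i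
  have h3 : (0 : ℝ) ≤ D.V ω i := by exact_mod_cast h1
  have h4 : (D.V ω i : ℝ) ≤ 2 ^ D.X := by exact_mod_cast h2.le
  unfold v
  rw [abs_of_nonneg (by positivity)]
  exact (div_le_one (by positivity)).2 h4

theorem s_cs {K : ℕ} {b θ : ℝ} (hH : Hyp D K b θ) (ω : D.Ω) (c : Fin m) :
    coefSum (D.s ω c) ≤ nN m K b := by
  have := cs_le (hH.s_deg ω c) (hH.s_cf ω c)
  unfold nN
  linarith

theorem ht_nrS {ω : D.Ω} {c : Fin m} :
    |D.v ω c - ((D.ht c ω : ℝ) / 2 ^ D.X + eval (D.v ω) (D.s ω c))| ≤ 1 / 2 ^ D.X := by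
  have h1 := Int.floor_le ((2 : ℝ) ^ D.X * (D.v ω c - eval (D.v ω) (D.s ω c)))
  have h2 := Int.lt_floor_add_one ((2 : ℝ) ^ D.X * (D.v ω c - eval (D.v ω) (D.s ω c)))
  have hp : (0 : ℝ) < 2 ^ D.X := by positivity
  have e : D.v ω c - ((D.ht c ω : ℝ) / 2 ^ D.X + eval (D.v ω) (D.s ω c)) =
      (2 ^ D.X * (D.v ω c - eval (D.v ω) (D.s ω c)) - D.ht c ω) / 2 ^ D.X := by
    field_simp
    ring
  rw [e, abs_div, abs_of_pos hp]
  refine div_le_div_of_nonneg_right ?_ hp.le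
  unfold ht dg
  rw [abs_le]
  constructor <;> linarith

theorem ht_le {K : ℕ} {b θ : ℝ} (hH : Hyp D K b θ) (ω : D.Ω) (c : Fin m) :
    |(D.ht c ω : ℝ) / 2 ^ D.X| ≤ nN m K b := by
  have h1 := ht_nrS (D := D) (ω := ω) (c := c)
  have h2 := v_leS hH ω c
  have h3 := (Pool.KAL.abs_eval_le_coefSum (D.s ω c) (D.v ω) (v_leS hH ω)).trans
    (cs_le (hH.s_deg ω c) (hH.s_cf ω c))
  have h4 : (1 : ℝ) / 2 ^ D.X ≤ 1 := by
    rw [div_le_one (by positivity)]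
    exact one_le_pow₀ one_le_two
  unfold nN
  rw [abs_le] at h1 h2 h3 ⊢
  constructor <;> linarith [h1.1, h1.2, h2.1, h2.2, h3.1, h3.2]

theorem sb_vars {K : ℕ} {b θ : ℝ} (hH : Hyp D K b θ) (M : Finset (Fin m)) (ω : D.Ω) (c : Fin m) :
    ∀ i ∈ (D.sb M ω c).vars, i ∈ M ∧ i < c := by
  intro i hi
  obtain ⟨k, hk, hik⟩ := mem_vars_bind₁ _ _ hi
  have hkc := hH.s_vars ω c k hk
  obtain ⟨h1, h2⟩ := el_vars (o := D.out M ω) (fun d q hd i hi => by
    obtain ⟨_, rfl⟩ := out_some' hd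
    exact hH.s_vars ω d i hi) m k k.2 i hik
  exact ⟨out_none h1, lt_of_le_of_lt h2 hkc⟩

theorem sb_deg {K : ℕ} (hK : 1 ≤ K) {b θ : ℝ} (hH : Hyp D K b θ) (M : Finset (Fin m)) (ω : D.Ω)
    (c : Fin m) : (D.sb M ω c).totalDegree ≤ K ^ (m + 1) := by
  refine (bind_deg (el_deg hK (fun d q hd => ?_) m) (hH.s_deg ω c)).trans
    (le_of_eq (pow_succ K m).symm)
  obtain ⟨_, rfl⟩ := out_some' hd
  exact hH.s_deg ω d

theorem sb_cs {K : ℕ} {b θ : ℝ} (hb : 0 ≤ b) (hH : Hyp D K b θ) (M : Finset (Fin m)) (ω : D.Ω)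
    (c : Fin m) : coefSum (D.sb M ω c) ≤ (2 : ℝ) ^ ((tS m K : ℝ) * (b + 1)) := by
  have hN := nN_ge m K b
  have h2N : (1 : ℝ) ≤ 2 * nN m K b := by linarith
  have h1 := el_cs (N := nN m K b) (K := K) (e := D.X) (o := D.out M ω) (by linarith)
    (fun d q hd => by
      obtain ⟨_, rfl⟩ := out_some' hd
      exact ⟨hH.s_deg ω d, s_cs hH ω d, ht_le hH ω d⟩) m
  have hB : (1 : ℝ) ≤ (2 * nN m K b) ^ ((K + 1) ^ m) := one_le_pow₀ h2N
  refine (coefSum_aeval_le (D.s ω c) (el D.X (D.out M ω) m) _ hB h1).trans ?_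
  have h2 : ((2 * nN m K b) ^ ((K + 1) ^ m)) ^ (D.s ω c).totalDegree * coefSum (D.s ω c) ≤
      ((2 * nN m K b) ^ ((K + 1) ^ m)) ^ K * (2 * nN m K b) := by
    refine mul_le_mul (pow_le_pow_right₀ hB (hH.s_deg ω c)) ?_ (coefSum_nonneg _) (by positivity)
    linarith [s_cs hH ω c]
  refine h2.trans ?_
  have e : ((2 * nN m K b) ^ ((K + 1) ^ m)) ^ K * (2 * nN m K b) =
      (2 * nN m K b) ^ ((K + 1) ^ m * K + 1) := by
    rw [pow_succ, pow_mul]
  rw [e]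
  refine nN_pow_le m K hb ?_
  rw [pow_succ, Nat.mul_add, Nat.mul_one]
  exact Nat.add_le_add_left (Nat.one_le_pow _ _ (Nat.succ_pos K)) _

theorem sb_near {K : ℕ} {b θ : ℝ} (hb : 0 ≤ b) (hH : Hyp D K b θ)
    (hs : (tS m K : ℝ) * (b + 1) ≤ D.X) (M : Finset (Fin m)) (ω : D.Ω) (c : Fin m) :
    (2 : ℝ) ^ D.X * |eval (D.v ω) (D.sb M ω c) - eval (D.v ω) (D.s ω c)| ≤
      (2 : ℝ) ^ ((tS m K : ℝ) * (b + 1)) := by
  have hp : (0 : ℝ) < 2 ^ D.X := by positivity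
  have hL := nL_ge m K b
  have hsm : 1 / 2 ^ D.X * nL m K b ^ m ≤ 1 := by
    rw [one_div, ← div_eq_inv_mul, div_le_one hp]
    refine (nL_pow_le m K hb (Nat.le_succ m)).trans ?_
    rw [← Real.rpow_natCast 2 D.X]
    exact Real.rpow_le_rpow_of_exponent_le one_le_two hs
  have hN0 : 0 ≤ nN m K b := by linarith [nN_ge m K b]
  have h1 := el_near (e := D.X) (K := K) (δ := 1 / 2 ^ D.X) (o := D.out M ω) (x := D.v ω)
    hN0 (by positivity) (v_leS hH ω) (fun d q hd => by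
      obtain ⟨_, rfl⟩ := out_some' hd
      exact ⟨hH.s_vars ω d, hH.s_deg ω d, s_cs hH ω d, ht_nrS⟩) hsm m le_rfl
  have h2 := lip_cs (u := fun i => eval (D.v ω) (el D.X (D.out M ω) m i)) (hH.s_deg ω c)
    (s_cs hH ω c) (v_leS hH ω) (by positivity : (0 : ℝ) ≤ 1 / 2 ^ D.X * nL m K b ^ m) hsm
    (fun i _ => h1 i i.2)
  have e1 : eval (D.v ω) (D.sb M ω c) =
      eval (fun i => eval (D.v ω) (el D.X (D.out M ω) m i)) (D.s ω c) := eval_bd _ _ _
  rw [e1]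
  refine (mul_le_mul_of_nonneg_left h2 hp.le).trans ?_
  have e2 : (2 : ℝ) ^ D.X * (K * 2 ^ K * nN m K b * (1 / 2 ^ D.X * nL m K b ^ m)) =
      K * 2 ^ K * nN m K b * nL m K b ^ m := by
    field_simp
  rw [e2]
  refine le_trans ?_ (nL_pow_le m K hb le_rfl)
  rw [pow_succ, mul_comm (nL m K b ^ m)]
  refine mul_le_mul_of_nonneg_right ?_ (by positivity)
  unfold nL
  linarith

/-- The rounded height over the eliminated sheet. -/
noncomputable def ha (D : Dat m) (M : Finset (Fin m)) (c : Fin m) (ω : D.Ω) : ℤ :=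
  dg D.X (D.v ω c - eval (D.v ω) (D.sb M ω c))

theorem ha_near {K : ℕ} {b θ : ℝ} (hb : 0 ≤ b) (hH : Hyp D K b θ)
    (hs : (tS m K : ℝ) * (b + 1) ≤ D.X) (M : Finset (Fin m)) (ω : D.Ω) (c : Fin m) :
    |((D.ha M c ω - D.ht c ω : ℤ) : ℝ)| ≤ (2 : ℝ) ^ ((tS m K : ℝ) * (b + 1)) + 1 := by
  have h1 := sb_near hb hH hs M ω c
  have hp : (0 : ℝ) < 2 ^ D.X := by positivity
  rw [← abs_of_pos hp, ← abs_mul] at h1
  unfold ha ht dg
  have a1 := Int.floor_le ((2 : ℝ) ^ D.X * (D.v ω c - eval (D.v ω) (D.s ω c)))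
  have a2 := Int.lt_floor_add_one ((2 : ℝ) ^ D.X * (D.v ω c - eval (D.v ω) (D.s ω c)))
  have a3 := Int.floor_le ((2 : ℝ) ^ D.X * (D.v ω c - eval (D.v ω) (D.sb M ω c)))
  have a4 := Int.lt_floor_add_one ((2 : ℝ) ^ D.X * (D.v ω c - eval (D.v ω) (D.sb M ω c)))
  push_cast
  rw [abs_le] at h1 ⊢
  constructor <;> linarith [h1.1, h1.2]

/-! ### Determinacy -/

theorem V_det_lt (hs : ∀ ω c, ∀ c' ∈ (D.s ω c).vars, c' < c) {M : Finset (Fin m)} {ω ω' : D.Ω}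
    (ho : D.out M ω = D.out M ω') {a : Fin m} (hM : ∀ i ∈ M, i < a → D.V ω i = D.V ω' i) :
    ∀ d, d < a → D.V ω d = D.V ω' d := by
  have key : ∀ n : ℕ, ∀ d : Fin m, (d : ℕ) = n → d < a → D.V ω d = D.V ω' d := by
    intro n
    induction n using Nat.strong_induction_on with
    | _ n ih =>
      intro d hd hda
      by_cases hM' : d ∈ M
      · exact hM d hM' hda
      · obtain ⟨h1, h2⟩ := D.out_some ho hM'
        refine D.V_det d h1 h2 fun c' hc' => ?_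
        have := hs ω d c' hc'
        exact ih c' (by rw [← hd]; exact this) c' rfl (this.trans hda)
  exact fun d hd => key d d rfl hd

theorem ht_det {ω ω' : D.Ω} {c : Fin m} (hs : D.s ω c = D.s ω' c) (hc : D.V ω c = D.V ω' c)
    (hV : ∀ d ∈ (D.s ω c).vars, D.V ω d = D.V ω' d) : D.ht c ω = D.ht c ω' := by
  unfold ht
  rw [D.v_congr hc, ← hs, eval_congr_vars (x := D.v ω) (y := D.v ω') fun i hi => D.v_congr (hV i hi)]

theorem out_congr {N : Finset (Fin m)} {ω ω' : D.Ω}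
    (h : ∀ d ∉ N, D.ht d ω = D.ht d ω' ∧ D.s ω d = D.s ω' d) : D.out N ω = D.out N ω' := by
  funext d
  by_cases hd : d ∈ N
  · rw [out_of_mem hd, out_of_mem hd]
  · rw [out_of_not hd, out_of_not hd, (h d hd).1, (h d hd).2]

theorem out_erase {M : Finset (Fin m)} {a : Fin m} {ω ω' : D.Ω} (ho : D.out M ω = D.out M ω')
    (h1 : D.ht a ω = D.ht a ω') (h2 : D.s ω a = D.s ω' a) :
    D.out (M.erase a) ω = D.out (M.erase a) ω' := by
  refine out_congr fun d hd => ?_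
  by_cases hda : d = a
  · rw [hda]
    exact ⟨h1, h2⟩
  · exact D.out_some ho fun hM => hd (Finset.mem_erase.2 ⟨hda, hM⟩)

theorem out_of_erase {M : Finset (Fin m)} {a : Fin m} {ω ω' : D.Ω}
    (ho : D.out (M.erase a) ω = D.out (M.erase a) ω') : D.out M ω = D.out M ω' :=
  out_congr fun _ hd => D.out_some ho fun h => hd (Finset.mem_erase.1 h).2

theorem on_congr {N : Finset (Fin m)} {ω ω' : D.Ω} (h : ∀ d ∈ N, D.V ω d = D.V ω' d) :
    D.on N ω = D.on N ω' := by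
  funext d
  unfold on
  by_cases hd : d ∈ N
  · rw [if_pos hd, if_pos hd, h d hd]
  · rw [if_neg hd, if_neg hd]

/-- All is determined by the position and the shapes. -/
theorem out_det {N : Finset (Fin m)} {ω ω' : D.Ω} (hV : D.V ω = D.V ω') (hs : D.s ω = D.s ω') :
    D.out N ω = D.out N ω' :=
  out_congr fun d _ => ⟨ht_det (congrFun hs d) (congrFun hV d) (fun i _ => congrFun hV i),
    congrFun hs d⟩

end Dat

/-! ### Entropies -/

theorem CH_close {Ω T : Type} [Fintype Ω] {p : Ω → ℝ} (hp : IsLaw p) (a h : Ω → ℤ) (Y : Ω → T)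
    {E : ℝ} (hE : ∀ ω, |((a ω - h ω : ℤ) : ℝ)| ≤ E) :
    CH p a (fun ω => (h ω, Y ω)) ≤ Real.log (4 * E + 1) := by
  have h1 := CH_le_int hp.nonneg hp.sum_one a (fun ω => (h ω, Y ω)) (fun _ => 2 * E) (by
    intro ω ω' _ _ e
    have e1 := (Prod.ext_iff.1 e).1
    simp only at e1
    have h2 := hE ω
    have h3 := hE ω'
    push_cast at h2 h3 ⊢
    rw [← e1] at h3
    rw [abs_le] at h2 h3 ⊢
    constructor <;> linarith [h2.1, h2.2, h3.1, h3.2])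
  rw [Ex_const hp.sum_one] at h1
  refine h1.trans (le_of_eq ?_)
  congr 1
  ring

theorem log_close {t : ℝ} (ht : 0 ≤ t) : Real.log (4 * ((2 : ℝ) ^ t + 1) + 1) ≤ t + 4 := by
  have h1 : (1 : ℝ) ≤ (2 : ℝ) ^ t := Real.one_le_rpow one_le_two ht
  have h2 : 4 * ((2 : ℝ) ^ t + 1) + 1 ≤ (2 : ℝ) ^ (t + 4) := by
    have e : (2 : ℝ) ^ (t + 4) = 2 ^ t * 16 := by
      rw [Real.rpow_add two_pos]
      norm_num
    rw [e]
    linarith
  refine (Real.log_le_log (by positivity) h2).trans ?_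
  rw [Real.log_rpow two_pos]
  have h3 : Real.log 2 ≤ 1 := by
    have := Real.log_two_lt_d9
    linarith
  nlinarith

/-- `H(X | A) ≤ H(X | B, A) + H(B | A)`, in the form used for lower bounds. -/
theorem CH_ge_sub {Ω S T U : Type} [Fintype Ω] {p : Ω → ℝ} (hp : ∀ ω, 0 ≤ p ω) (X : Ω → S)
    (B : Ω → T) (A : Ω → U) : CH p X A - CH p B A ≤ CH p X (fun ω => (B ω, A ω)) := by
  have := CH_le_add hp X B A
  linarith

end Pool.TIE
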