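import Pool.Agent.H77.TIE.Elim
import Pool.Agent.H50.LBL.Pl1

/-!
# Coordinates of a set, and one coordinate

`res N`: a polynomial in the coordinates of the set `N` as a polynomial in `N.card` variables;
`onv c x`: a polynomial in the direction of the coordinate `c`.
-/

set_option autoImplicit false

namespace Pool.TIE

open Finset MvPolynomial
open Pool.Agent.H49.Ent Pool.Agent.H32.Dense Pool.STK Pool.BFL
open Pool.KAL (coefSum coefSum_nonneg coefSum_add_le coefSum_C coefSum_X coefSum_aeval_le
  abs_coeff_le expBox coefSum_eq_box coefSum_zero)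
open Pool.LBL (l1 l1_nn l1_C l1_monomial l1_sum l1_mul l1_mul_le)

variable {m : ℕ}

/-- The coordinates of a set. -/
noncomputable def ix (N : Finset (Fin m)) (i : Fin N.card) : Fin m := (N.equivFin.symm i).1

theorem ix_mem (N : Finset (Fin m)) (i : Fin N.card) : ix N i ∈ N := (N.equivFin.symm i).2

theorem ix_inj (N : Finset (Fin m)) : Function.Injective (ix N) :=
  Subtype.val_injective.comp N.equivFin.symm.injective

theorem ix_surj {N : Finset (Fin m)} {d : Fin m} (h : d ∈ N) : ∃ i, ix N i = d :=
  ⟨N.equivFin ⟨d, h⟩, by unfold ix; rw [Equiv.symm_apply_apply]⟩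

theorem ix_equiv {N : Finset (Fin m)} {d : Fin m} (h : d ∈ N) : ix N (N.equivFin ⟨d, h⟩) = d := by
  unfold ix
  rw [Equiv.symm_apply_apply]

theorem eval_bd {σ τ : Type*} (x : τ → ℝ) (g : σ → MvPolynomial τ ℝ) (G : MvPolynomial σ ℝ) :
    eval x (bind₁ g G) = eval (fun i => eval x (g i)) G := by
  have h := aeval_bind₁ (R := ℝ) (S := ℝ) (f := x) (g := g) (φ := G)
  rw [← MvPolynomial.coe_aeval_eq_eval, ← MvPolynomial.coe_aeval_eq_eval]
  simpa using h

/-- A polynomial in the coordinates of `N`. -/
noncomputable def res (N : Finset (Fin m)) (G : Pl m) : Pl N.card :=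
  bind₁ (fun d => if h : d ∈ N then X (N.equivFin ⟨d, h⟩) else 0) G

theorem eval_res {N : Finset (Fin m)} {G : Pl m} (hG : G.vars ⊆ N) (x : Fin m → ℝ) :
    eval (fun i => x (ix N i)) (res N G) = eval x G := by
  unfold res
  rw [eval_bd]
  refine eval_congr_vars fun d hd => ?_
  rw [dif_pos (hG hd), eval_X, ix_equiv]

theorem res_deg (N : Finset (Fin m)) (G : Pl m) : (res N G).totalDegree ≤ G.totalDegree := by
  have h := Pool.KS3.SML.totalDegree_bind_le
    (fun d : Fin m => if h : d ∈ N then (X (N.equivFin ⟨d, h⟩) : Pl N.card) else 0) 1 (fun d => by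
      split_ifs
      · exact (totalDegree_X _).le
      · simp) G
  rw [one_mul] at h
  exact h

theorem res_cs (N : Finset (Fin m)) (G : Pl m) : coefSum (res N G) ≤ coefSum G := by
  have h := coefSum_aeval_le G
    (fun d : Fin m => if h : d ∈ N then (X (N.equivFin ⟨d, h⟩) : Pl N.card) else 0) 1 le_rfl
    (fun d => by
      split_ifs
      · exact (coefSum_X _).le
      · rw [coefSum_zero]
        exact zero_le_one)
  rw [one_pow, one_mul] at h
  exact h

/-! ### One coordinate -/

/-- The polynomial in the direction of the coordinate `c`. -/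
noncomputable def onv (c : Fin m) (x : Fin m → ℝ) (G : Pl m) : Polynomial ℝ :=
  aeval (fun d => if d = c then Polynomial.X else Polynomial.C (x d)) G

theorem eval_onv (c : Fin m) (x : Fin m → ℝ) (G : Pl m) (y : ℝ) :
    (onv c x G).eval y = eval (fun d => if d = c then y else x d) G := by
  unfold onv
  induction G using MvPolynomial.induction_on with
  | C a => simp
  | add p q hp hq => rw [map_add, Polynomial.eval_add, hp, hq, map_add]
  | mul_X p d hp =>
    rw [map_mul, Polynomial.eval_mul, hp, map_mul, aeval_X, eval_X]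
    congr 1
    split_ifs
    · exact Polynomial.eval_X
    · exact Polynomial.eval_C

theorem onv_deg (c : Fin m) (x : Fin m → ℝ) (G : Pl m) :
    (onv c x G).natDegree ≤ G.totalDegree := by
  have h := MvPolynomial.aeval_natDegree_le (n := 1) G le_rfl
    (fun d => if d = c then Polynomial.X else Polynomial.C (x d)) (fun d => by
      split_ifs
      · exact Polynomial.natDegree_X_le
      · rw [Polynomial.natDegree_C]
        exact Nat.zero_le _)
  rw [mul_one] at h
  exact h

theorem l1_pow_le {p : Polynomial ℝ} (h : l1 p ≤ 1) (n : ℕ) : l1 (p ^ n) ≤ 1 := by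
  induction n with
  | zero =>
    rw [pow_zero]
    have : (1 : Polynomial ℝ) = Polynomial.C 1 := by simp
    rw [this, l1_C, abs_one]
  | succ n ih =>
    rw [pow_succ]
    refine (l1_mul_le ih h).trans ?_
    norm_num

theorem abs_coeff_le_l1 (p : Polynomial ℝ) (i : ℕ) : |p.coeff i| ≤ l1 p := by
  unfold l1
  by_cases hi : i ∈ p.support
  · exact Finset.single_le_sum (f := fun i => |p.coeff i|) (fun _ _ => abs_nonneg _) hi
  · rw [Polynomial.notMem_support_iff.1 hi, abs_zero]
    exact l1_nn p

theorem onv_cf (c : Fin m) {x : Fin m → ℝ} (hx : ∀ i, |x i| ≤ 1) (G : Pl m) (i : ℕ) :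
    |(onv c x G).coeff i| ≤ coefSum G := by
  classical
  refine (abs_coeff_le_l1 _ i).trans ?_
  unfold onv
  rw [aeval_def, eval₂_eq']
  refine (l1_sum _ _).trans ?_
  unfold coefSum
  refine Finset.sum_le_sum fun α _ => ?_
  have h1 : l1 ((algebraMap ℝ (Polynomial ℝ)) (coeff α G)) ≤ |coeff α G| := by
    rw [← Polynomial.C_eq_algebraMap, l1_C]
  have h2 : l1 (∏ d, (if d = c then Polynomial.X else Polynomial.C (x d)) ^ α d) ≤ 1 := by
    refine (Pool.LBL.l1_prod Finset.univ _ 1 zero_le_one fun d _ => ?_).trans (le_of_eq (one_pow _))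
    refine l1_pow_le ?_ _
    split_ifs
    · have : (Polynomial.X : Polynomial ℝ) = Polynomial.monomial 1 1 := rfl
      rw [this, l1_monomial, abs_one]
    · rw [l1_C]
      exact hx d
  refine (l1_mul_le h1 h2).trans (le_of_eq (mul_one _))

/-! ### Renaming -/

theorem coeff_rename_le {k : ℕ} {f : Fin k → Fin m} (hf : Function.Injective f) {G : Pl k} {B : ℝ}
    (hB : 0 ≤ B) (h : ∀ α, |coeff α G| ≤ B) (β : Fin m →₀ ℕ) :
    |coeff β (rename f G)| ≤ B := by
  by_cases hβ : ∃ u : Fin k →₀ ℕ, u.mapDomain f = β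
  · obtain ⟨u, rfl⟩ := hβ
    rw [coeff_rename_mapDomain f hf]
    exact h u
  · rw [coeff_rename_eq_zero f G β fun u hu => absurd ⟨u, hu⟩ hβ, abs_zero]
    exact hB

end Pool.TIE
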